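import Pool.Agent.H240.AL.Def

set_option autoImplicit false
set_option linter.all false

/-! # The energy identity and the identities of Rellich (helper935) -/

open Set Filter Topology MeasureTheory
open scoped ContDiff Real

noncomputable section

namespace Pool.Agent.H240.AL.I2

open Pool.Agent.Y262.EG Pool.Agent.H240.AL

/-! ### first derivatives -/

/-- `f` is differentiable at `z` with the first derivatives `p`, `q` -/
def HD (f : ℂ → ℝ) (z : ℂ) (p q : ℝ) : Prop :=
  DifferentiableAt ℝ f z ∧ px f z = p ∧ py f z = q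

theorem HD.cg {f : ℂ → ℝ} {z : ℂ} {p q p' q' : ℝ} (h : HD f z p q) (hp : p = p') (hq : q = q') :
    HD f z p' q' := hp ▸ hq ▸ h

theorem HD.add {f g : ℂ → ℝ} {z : ℂ} {p q p' q' : ℝ} (h : HD f z p q) (h' : HD g z p' q') :
    HD (fun z => f z + g z) z (p + p') (q + q') := by
  refine ⟨h.1.fun_add h'.1, ?_, ?_⟩
  · unfold px
    rw [fderiv_fun_add h.1 h'.1]
    show fderiv ℝ f z 1 + fderiv ℝ g z 1 = _
    rw [← h.2.1, ← h'.2.1]; rfl
  · unfold py
    rw [fderiv_fun_add h.1 h'.1]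
    show fderiv ℝ f z Complex.I + fderiv ℝ g z Complex.I = _
    rw [← h.2.2, ← h'.2.2]; rfl

theorem HD.sub {f g : ℂ → ℝ} {z : ℂ} {p q p' q' : ℝ} (h : HD f z p q) (h' : HD g z p' q') :
    HD (fun z => f z - g z) z (p - p') (q - q') := by
  refine ⟨h.1.fun_sub h'.1, ?_, ?_⟩
  · unfold px
    rw [fderiv_fun_sub h.1 h'.1]
    show fderiv ℝ f z 1 - fderiv ℝ g z 1 = _
    rw [← h.2.1, ← h'.2.1]; rfl
  · unfold py
    rw [fderiv_fun_sub h.1 h'.1]
    show fderiv ℝ f z Complex.I - fderiv ℝ g z Complex.I = _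
    rw [← h.2.2, ← h'.2.2]; rfl

theorem HD.mul {f g : ℂ → ℝ} {z : ℂ} {p q p' q' : ℝ} (h : HD f z p q) (h' : HD g z p' q') :
    HD (fun z => f z * g z) z (f z * p' + g z * p) (f z * q' + g z * q) := by
  refine ⟨h.1.fun_mul h'.1, ?_, ?_⟩
  · unfold px
    rw [fderiv_fun_mul h.1 h'.1]
    show f z * fderiv ℝ g z 1 + g z * fderiv ℝ f z 1 = _
    rw [← h.2.1, ← h'.2.1]; rfl
  · unfold py
    rw [fderiv_fun_mul h.1 h'.1]
    show f z * fderiv ℝ g z Complex.I + g z * fderiv ℝ f z Complex.I = _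
    rw [← h.2.2, ← h'.2.2]; rfl

theorem HD.const (c : ℝ) (z : ℂ) : HD (fun _ => c) z 0 0 := by
  refine ⟨differentiableAt_const c, ?_, ?_⟩
  · unfold px
    rw [fderiv_fun_const]; rfl
  · unfold py
    rw [fderiv_fun_const]; rfl

theorem HD.re {a : ℝ → ℝ} {z : ℂ} (h : DifferentiableAt ℝ a z.re) :
    HD (fun z => a z.re) z (deriv a z.re) 0 := by
  have h1 : HasFDerivAt (fun z : ℂ => a z.re)
      ((ContinuousLinearMap.toSpanSingleton ℝ (deriv a z.re)).comp Complex.reCLM) z :=
    h.hasDerivAt.hasFDerivAt.comp z Complex.reCLM.hasFDerivAt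
  refine ⟨h1.differentiableAt, ?_, ?_⟩
  · unfold px
    rw [h1.fderiv]
    simp
  · unfold py
    rw [h1.fderiv]
    simp

theorem HD.im {b : ℝ → ℝ} {z : ℂ} (h : DifferentiableAt ℝ b z.im) :
    HD (fun z => b z.im) z 0 (deriv b z.im) := by
  have h1 : HasFDerivAt (fun z : ℂ => b z.im)
      ((ContinuousLinearMap.toSpanSingleton ℝ (deriv b z.im)).comp Complex.imCLM) z :=
    h.hasDerivAt.hasFDerivAt.comp z Complex.imCLM.hasFDerivAt
  refine ⟨h1.differentiableAt, ?_, ?_⟩
  · unfold px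
    rw [h1.fderiv]
    simp
  · unfold py
    rw [h1.fderiv]
    simp

theorem HD.self {v : ℂ → ℝ} {z : ℂ} (h : DifferentiableAt ℝ v z) : HD v z (px v z) (py v z) :=
  ⟨h, rfl, rfl⟩

/-! ### the strip -/

theorem isOpen_Sx (x0 R : ℝ) : IsOpen (Sx x0 R) := by
  unfold Sx
  exact isOpen_lt (continuous_abs.comp (Complex.continuous_re.sub continuous_const)) continuous_const

theorem sub_Sx {x0 R : ℝ} {z : ℂ} (h : z ∈ Qx x0 R) : z ∈ Sx x0 R := h.1

theorem meas_Qx (x0 R : ℝ) : MeasurableSet (Qx x0 R) := by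
  have h1 : MeasurableSet {z : ℂ | z.im ∈ Ioc 0 (2 * π)} :=
    Complex.measurable_im measurableSet_Ioc
  exact (isOpen_Sx x0 R).measurableSet.inter h1

theorem shift_mem {x0 R : ℝ} {z : ℂ} (h : z ∈ Sx x0 R) : z + 2 * π * Complex.I ∈ Sx x0 R := by
  unfold Sx at h ⊢
  have h1 : (z + 2 * π * Complex.I).re = z.re := by simp
  show |(z + 2 * π * Complex.I).re - x0| < R
  rw [h1]
  exact h

theorem shift_re (z : ℂ) : (z + 2 * π * Complex.I).re = z.re := by simp
theorem shift_im (z : ℂ) : (z + 2 * π * Complex.I).im = z.im + 2 * π := by simp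

/-! ### smooth functions on the strip -/

variable {x0 R lam : ℝ}

theorem sm_re {a : ℝ → ℝ} (h : ContDiffOn ℝ ∞ a (Ioo (x0 - R) (x0 + R))) :
    ContDiffOn ℝ ∞ (fun z : ℂ => a z.re) (Sx x0 R) := by
  refine ContDiffOn.comp h Complex.reCLM.contDiff.contDiffOn ?_
  intro z hz
  have h1 : |z.re - x0| < R := hz
  rw [abs_lt] at h1
  show z.re ∈ Ioo (x0 - R) (x0 + R)
  exact ⟨by linarith [h1.1], by linarith [h1.2]⟩

theorem sm_im {b : ℝ → ℝ} (h : ContDiff ℝ ∞ b) :
    ContDiffOn ℝ ∞ (fun z : ℂ => b z.im) (Sx x0 R) :=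
  (h.comp Complex.imCLM.contDiff).contDiffOn

theorem sm_px {v : ℂ → ℝ} (h : ContDiffOn ℝ ∞ v (Sx x0 R)) : ContDiffOn ℝ ∞ (px v) (Sx x0 R) := by
  have h1 : ContDiffOn ℝ ∞ (fderiv ℝ v) (Sx x0 R) :=
    h.fderiv_of_isOpen (isOpen_Sx x0 R) (by exact le_rfl)
  exact h1.clm_apply contDiffOn_const

theorem sm_py {v : ℂ → ℝ} (h : ContDiffOn ℝ ∞ v (Sx x0 R)) : ContDiffOn ℝ ∞ (py v) (Sx x0 R) := by
  have h1 : ContDiffOn ℝ ∞ (fderiv ℝ v) (Sx x0 R) :=
    h.fderiv_of_isOpen (isOpen_Sx x0 R) (by exact le_rfl)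
  exact h1.clm_apply contDiffOn_const

theorem sm_deriv {a : ℝ → ℝ} (h : ContDiff ℝ ∞ a) : ContDiff ℝ ∞ (deriv a) :=
  ((contDiff_infty_iff_deriv (𝕜 := ℝ)).1 h).2

theorem sm_diff {f : ℂ → ℝ} (h : ContDiffOn ℝ ∞ f (Sx x0 R)) {z : ℂ} (hz : z ∈ Sx x0 R) :
    DifferentiableAt ℝ f z :=
  ((h z hz).contDiffAt ((isOpen_Sx x0 R).mem_nhds hz)).differentiableAt (by simp)

theorem symm2 {v : ℂ → ℝ} (h : ContDiffOn ℝ ∞ v (Sx x0 R)) {z : ℂ} (hz : z ∈ Sx x0 R) :
    px (py v) z = py (px v) z := by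
  have hs : IsSymmSndFDerivAt ℝ v z := by
    refine ContDiffAt.isSymmSndFDerivAt ((h z hz).contDiffAt ((isOpen_Sx x0 R).mem_nhds hz)) ?_
    rw [minSmoothness_of_isRCLikeNormedField]
    show ((2 : ℕ∞) : ℕ∞ω) ≤ ((⊤ : ℕ∞) : ℕ∞ω)
    exact WithTop.coe_le_coe.2 le_top
  have hd : DifferentiableAt ℝ (fderiv ℝ v) z := by
    have h1 : ContDiffOn ℝ ∞ (fderiv ℝ v) (Sx x0 R) :=
      h.fderiv_of_isOpen (isOpen_Sx x0 R) (by exact le_rfl)
    exact ((h1 z hz).contDiffAt ((isOpen_Sx x0 R).mem_nhds hz)).differentiableAt (by simp)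
  have h1 : ∀ u w : ℂ, fderiv ℝ (fun z => fderiv ℝ v z u) z w = fderiv ℝ (fderiv ℝ v) z w u := by
    intro u w
    rw [fderiv_clm_apply hd (differentiableAt_const u)]
    simp
  show fderiv ℝ (fun z => fderiv ℝ v z Complex.I) z 1 = fderiv ℝ (fun z => fderiv ℝ v z 1) z Complex.I
  rw [h1, h1]
  exact hs 1 Complex.I

theorem per_fderiv {v : ℂ → ℝ} (h : ∀ z ∈ Sx x0 R, v (z + 2 * π * Complex.I) = v z) {z : ℂ}
    (hz : z ∈ Sx x0 R) : fderiv ℝ v (z + 2 * π * Complex.I) = fderiv ℝ v z := by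
  rw [← fderiv_comp_add_right]
  apply Filter.EventuallyEq.fderiv_eq
  filter_upwards [(isOpen_Sx x0 R).mem_nhds hz] with u hu
  exact h u hu

theorem per_px {v : ℂ → ℝ} (h : ∀ z ∈ Sx x0 R, v (z + 2 * π * Complex.I) = v z) :
    ∀ z ∈ Sx x0 R, px v (z + 2 * π * Complex.I) = px v z := by
  intro z hz
  unfold px
  rw [per_fderiv h hz]

theorem per_py {v : ℂ → ℝ} (h : ∀ z ∈ Sx x0 R, v (z + 2 * π * Complex.I) = v z) :
    ∀ z ∈ Sx x0 R, py v (z + 2 * π * Complex.I) = py v z := by
  intro z hz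
  unfold py
  rw [per_fderiv h hz]

theorem pf_deriv {b : ℝ → ℝ} (h : Pf b) : Pf (deriv b) := by
  refine ⟨sm_deriv h.sm, fun y => ?_⟩
  have h1 : (fun y => b (y + 2 * π)) = b := funext h.per
  have h2 := deriv_comp_add_const b (2 * π) y
  rw [h1] at h2
  exact h2.symm

theorem ct_both {a : ℝ → ℝ} (h : Ct x0 R a) :
    ∃ r : ℝ, 0 < r ∧ r < R ∧ ∀ x, r ≤ |x - x0| → a x = 0 ∧ deriv a x = 0 := by
  obtain ⟨r, hr, hrR, h0⟩ := h.sup
  refine ⟨(r + R) / 2, by linarith, by linarith, fun x hx => ?_⟩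
  refine ⟨h0 x (by linarith), ?_⟩
  have h1 : a =ᶠ[𝓝 x] fun _ => 0 := by
    have h2 : {y : ℝ | r < |y - x0|} ∈ 𝓝 x := by
      refine (isOpen_lt continuous_const
        (continuous_abs.comp (continuous_id.sub continuous_const))).mem_nhds ?_
      show r < |x - x0|
      linarith
    filter_upwards [h2] with y hy
    exact h0 y (le_of_lt hy)
  rw [h1.deriv_eq]
  simp

theorem ct_deriv {a : ℝ → ℝ} (h : Ct x0 R a) : Ct x0 R (deriv a) := by
  obtain ⟨r, hr, hrR, h0⟩ := ct_both h
  exact ⟨sm_deriv h.sm, r, hr, hrR, fun x hx => (h0 x hx).2⟩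

/-! ### the identities -/

theorem stId (h1 : StInt) (h2 : StDiv) : StId := by
  intro x0 R lam w a b v hw hv ha hb
  have hA : ContDiffOn ℝ ∞ (fun z : ℂ => a z.re) (Sx x0 R) := sm_re ha.sm.contDiffOn
  have hA' : ContDiffOn ℝ ∞ (fun z : ℂ => deriv a z.re) (Sx x0 R) :=
    sm_re (sm_deriv ha.sm).contDiffOn
  have hB : ContDiffOn ℝ ∞ (fun z : ℂ => b z.im) (Sx x0 R) := sm_im hb.sm
  have hB' : ContDiffOn ℝ ∞ (fun z : ℂ => deriv b z.im) (Sx x0 R) := sm_im (sm_deriv hb.sm)
  have hB'' : ContDiffOn ℝ ∞ (fun z : ℂ => deriv (deriv b) z.im) (Sx x0 R) :=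
    sm_im (sm_deriv (sm_deriv hb.sm))
  have hW : ContDiffOn ℝ ∞ (fun z : ℂ => w z.re) (Sx x0 R) := sm_re hw
  have hW' : ContDiffOn ℝ ∞ (fun z : ℂ => deriv w z.re) (Sx x0 R) :=
    sm_re (hw.deriv_of_isOpen isOpen_Ioo (by exact le_rfl))
  have hV := hv.sm
  have hX := sm_px hV
  have hY := sm_py hV
  obtain ⟨r, hr, hrR, h0⟩ := ct_both ha
  have one : (1 : ℕ∞ω) ≤ ∞ := by exact_mod_cast le_top
  -- derivatives at a point
  have dA : ∀ z ∈ Sx x0 R, HD (fun z : ℂ => a z.re) z (deriv a z.re) 0 := fun z hz =>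
    HD.re (ha.sm.differentiable (by simp) _)
  have dA' : ∀ z ∈ Sx x0 R, HD (fun z : ℂ => deriv a z.re) z (deriv (deriv a) z.re) 0 := fun z hz =>
    HD.re ((sm_deriv ha.sm).differentiable (by simp) _)
  have dB : ∀ z ∈ Sx x0 R, HD (fun z : ℂ => b z.im) z 0 (deriv b z.im) := fun z hz =>
    HD.im (hb.sm.differentiable (by simp) _)
  have dB' : ∀ z ∈ Sx x0 R, HD (fun z : ℂ => deriv b z.im) z 0 (deriv (deriv b) z.im) :=
    fun z hz => HD.im ((sm_deriv hb.sm).differentiable (by simp) _)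
  have dW : ∀ z ∈ Sx x0 R, HD (fun z : ℂ => w z.re) z (deriv w z.re) 0 := by
    intro z hz
    have h3 : |z.re - x0| < R := hz
    rw [abs_lt] at h3
    have h4 : z.re ∈ Ioo (x0 - R) (x0 + R) := ⟨by linarith [h3.1], by linarith [h3.2]⟩
    exact HD.re (((hw z.re h4).contDiffAt (isOpen_Ioo.mem_nhds h4)).differentiableAt (by simp))
  have dV : ∀ z ∈ Sx x0 R, HD v z (px v z) (py v z) := fun z hz => HD.self (sm_diff hV hz)
  have dX : ∀ z ∈ Sx x0 R, HD (px v) z (px (px v) z) (py (px v) z) := fun z hz =>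
    HD.self (sm_diff hX hz)
  have dY : ∀ z ∈ Sx x0 R, HD (py v) z (py (px v) z) (py (py v) z) := fun z hz =>
    (HD.self (sm_diff hY hz)).cg (symm2 hV hz) rfl
  -- periodicity
  have pV := hv.per
  have pX := per_px pV
  have pY := per_py pV
  have pB : ∀ z ∈ Sx x0 R, b (z + 2 * π * Complex.I).im = b z.im := fun z _ => by
    rw [shift_im, hb.per]
  have pB' : ∀ z ∈ Sx x0 R, deriv b (z + 2 * π * Complex.I).im = deriv b z.im := fun z _ => by
    rw [shift_im, (pf_deriv hb).per]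
  refine ⟨?_, ?_, ?_⟩
  · -- the energy identity
    have key := h2 x0 R
      (fun z => a z.re * b z.im * (v z * px v z) - (1 / 2) * (deriv a z.re * b z.im * (v z * v z)))
      (fun z => a z.re * b z.im * (v z * py v z) - (1 / 2) * (a z.re * deriv b z.im * (v z * v z)))
      ((((hA.mul hB).mul (hV.mul hX)).sub
        (contDiffOn_const.mul ((hA'.mul hB).mul (hV.mul hV)))).of_le one)
      ((((hA.mul hB).mul (hV.mul hY)).sub
        (contDiffOn_const.mul ((hA.mul hB').mul (hV.mul hV)))).of_le one)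
      ⟨r, hr, hrR, fun z _ hz => by
        have h3 := h0 z.re hz
        simp only [h3.1, h3.2]
        constructor <;> ring⟩
      (fun z hz => by
        simp only [pV z hz, pY z hz, pB z hz, pB' z hz, shift_re])
    have e1 : ∫ z in Qx x0 R, (a z.re * (b z.im *
        ((px v z) ^ 2 + (py v z) ^ 2 - lam * w z.re * (v z) ^ 2)) -
        (1 / 2) * (deriv (deriv a) z.re * (b z.im * (v z) ^ 2) +
          a z.re * (deriv (deriv b) z.im * (v z) ^ 2))) = 0 := by
      rw [← key]
      refine setIntegral_congr_fun (meas_Qx x0 R) (fun z hz => ?_)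
      have hz' := sub_Sx hz
      have f1 := (((dA z hz').mul (dB z hz')).mul ((dV z hz').mul (dX z hz'))).sub
        ((HD.const (1 / 2) z).mul (((dA' z hz').mul (dB z hz')).mul ((dV z hz').mul (dV z hz'))))
      have f2 := (((dA z hz').mul (dB z hz')).mul ((dV z hz').mul (dY z hz'))).sub
        ((HD.const (1 / 2) z).mul (((dA z hz').mul (dB' z hz')).mul ((dV z hz').mul (dV z hz'))))
      have g3 := hv.eq z hz'
      refine Eq.trans ?_ (congrArg₂ (fun s t : ℝ => s + t) f1.2.1 f2.2.2).symm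
      beta_reduce
      linear_combination (-(a z.re * b z.im * v z)) * g3
    have i1 := h1 x0 R a (fun z => b z.im * ((px v z) ^ 2 + (py v z) ^ 2 - lam * w z.re * (v z) ^ 2))
      ha (hB.continuousOn.mul (((hX.continuousOn.pow 2).add (hY.continuousOn.pow 2)).sub
        ((continuousOn_const.mul hW.continuousOn).mul (hV.continuousOn.pow 2))))
    have i2 := h1 x0 R (deriv (deriv a)) (fun z => b z.im * (v z) ^ 2) (ct_deriv (ct_deriv ha))
      (hB.continuousOn.mul (hV.continuousOn.pow 2))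
    have i3 := h1 x0 R a (fun z => deriv (deriv b) z.im * (v z) ^ 2) ha
      (hB''.continuousOn.mul (hV.continuousOn.pow 2))
    have i4 : IntegrableOn (fun z => (1 / 2 : ℝ) * (deriv (deriv a) z.re * (b z.im * (v z) ^ 2) +
        a z.re * (deriv (deriv b) z.im * (v z) ^ 2))) (Qx x0 R) := (i2.add i3).const_mul (1 / 2)
    rw [integral_sub i1 i4, integral_const_mul, sub_eq_zero] at e1
    calc _ = _ := by
          refine integral_congr_ae (Eventually.of_forall fun z => ?_)
          simp only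
          ring
      _ = _ := e1
      _ = _ := by
          congr 1
          refine integral_congr_ae (Eventually.of_forall fun z => ?_)
          simp only
          ring
  · -- the first identity of Rellich
    have key := h2 x0 R
      (fun z => 2 * (a z.re * b z.im * (px v z * py v z)))
      (fun z => a z.re * b z.im * (py v z * py v z - px v z * px v z + lam * w z.re * (v z * v z)))
      ((contDiffOn_const.mul ((hA.mul hB).mul (hX.mul hY))).of_le one)
      (((hA.mul hB).mul (((hY.mul hY).sub (hX.mul hX)).add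
        ((contDiffOn_const.mul hW).mul (hV.mul hV)))).of_le one)
      ⟨r, hr, hrR, fun z _ hz => by
        have h3 := h0 z.re hz
        simp only [h3.1, h3.2]
        constructor <;> ring⟩
      (fun z hz => by
        simp only [pV z hz, pY z hz, pX z hz, pB z hz, pB' z hz, shift_re])
    have e1 : ∫ z in Qx x0 R, (a z.re * (deriv b z.im *
        ((py v z) ^ 2 - (px v z) ^ 2 + lam * w z.re * (v z) ^ 2)) +
        2 * (deriv a z.re * (b z.im * (px v z * py v z)))) = 0 := by
      rw [← key]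
      refine setIntegral_congr_fun (meas_Qx x0 R) (fun z hz => ?_)
      have hz' := sub_Sx hz
      have f1 := (HD.const 2 z).mul (((dA z hz').mul (dB z hz')).mul ((dX z hz').mul (dY z hz')))
      have f2 := ((dA z hz').mul (dB z hz')).mul
        ((((dY z hz').mul (dY z hz')).sub ((dX z hz').mul (dX z hz'))).add
          (((HD.const lam z).mul (dW z hz')).mul ((dV z hz').mul (dV z hz'))))
      have g3 := hv.eq z hz'
      refine Eq.trans ?_ (congrArg₂ (fun s t : ℝ => s + t) f1.2.1 f2.2.2).symm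
      beta_reduce
      linear_combination (-(2 * a z.re * b z.im * py v z)) * g3
    have i1 := h1 x0 R a (fun z => deriv b z.im *
      ((py v z) ^ 2 - (px v z) ^ 2 + lam * w z.re * (v z) ^ 2))
      ha (hB'.continuousOn.mul (((hY.continuousOn.pow 2).sub (hX.continuousOn.pow 2)).add
        ((continuousOn_const.mul hW.continuousOn).mul (hV.continuousOn.pow 2))))
    have i2 := h1 x0 R (deriv a) (fun z => b z.im * (px v z * py v z)) (ct_deriv ha)
      (hB.continuousOn.mul (hX.continuousOn.mul hY.continuousOn))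
    rw [integral_add i1 (i2.const_mul 2), integral_const_mul] at e1
    have e2 : ∫ z in Qx x0 R, a z.re * deriv b z.im *
        ((py v z) ^ 2 - (px v z) ^ 2 + lam * w z.re * (v z) ^ 2) =
        ∫ z in Qx x0 R, a z.re * (deriv b z.im *
        ((py v z) ^ 2 - (px v z) ^ 2 + lam * w z.re * (v z) ^ 2)) := by
      refine integral_congr_ae (Eventually.of_forall fun z => ?_)
      simp only
      ring
    have e3 : ∫ z in Qx x0 R, deriv a z.re * b z.im * (px v z * py v z) =
        ∫ z in Qx x0 R, deriv a z.re * (b z.im * (px v z * py v z)) := by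
      refine integral_congr_ae (Eventually.of_forall fun z => ?_)
      simp only
      ring
    rw [e2, e3]
    linarith
  · -- the second identity of Rellich
    have key := h2 x0 R
      (fun z => a z.re * (px v z * px v z - py v z * py v z + lam * w z.re * (v z * v z)))
      (fun z => 2 * (a z.re * (px v z * py v z)))
      ((hA.mul (((hX.mul hX).sub (hY.mul hY)).add
        ((contDiffOn_const.mul hW).mul (hV.mul hV)))).of_le one)
      ((contDiffOn_const.mul (hA.mul (hX.mul hY))).of_le one)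
      ⟨r, hr, hrR, fun z _ hz => by
        have h3 := h0 z.re hz
        simp only [h3.1, h3.2]
        constructor <;> ring⟩
      (fun z hz => by
        simp only [pV z hz, pY z hz, pX z hz, shift_re])
    have e1 : ∫ z in Qx x0 R, (deriv a z.re *
        ((px v z) ^ 2 - (py v z) ^ 2 + lam * w z.re * (v z) ^ 2) +
        lam * (a z.re * (deriv w z.re * (v z) ^ 2))) = 0 := by
      rw [← key]
      refine setIntegral_congr_fun (meas_Qx x0 R) (fun z hz => ?_)
      have hz' := sub_Sx hz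
      have f1 := (dA z hz').mul
        ((((dX z hz').mul (dX z hz')).sub ((dY z hz').mul (dY z hz'))).add
          (((HD.const lam z).mul (dW z hz')).mul ((dV z hz').mul (dV z hz'))))
      have f2 := (HD.const 2 z).mul ((dA z hz').mul ((dX z hz').mul (dY z hz')))
      have g3 := hv.eq z hz'
      refine Eq.trans ?_ (congrArg₂ (fun s t : ℝ => s + t) f1.2.1 f2.2.2).symm
      beta_reduce
      linear_combination (-(2 * a z.re * px v z)) * g3
    have i1 := h1 x0 R (deriv a) (fun z =>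
      ((px v z) ^ 2 - (py v z) ^ 2 + lam * w z.re * (v z) ^ 2))
      (ct_deriv ha) (((hX.continuousOn.pow 2).sub (hY.continuousOn.pow 2)).add
        ((continuousOn_const.mul hW.continuousOn).mul (hV.continuousOn.pow 2)))
    have i2 := h1 x0 R a (fun z => deriv w z.re * (v z) ^ 2) ha
      (hW'.continuousOn.mul (hV.continuousOn.pow 2))
    rw [integral_add i1 (i2.const_mul lam), integral_const_mul] at e1
    have e3 : ∫ z in Qx x0 R, a z.re * deriv w z.re * (v z) ^ 2 =
        ∫ z in Qx x0 R, a z.re * (deriv w z.re * (v z) ^ 2) := by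
      refine integral_congr_ae (Eventually.of_forall fun z => ?_)
      simp only
      ring
    rw [e3]
    linarith

end Pool.Agent.H240.AL.I2
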