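import Pool.Graph.R_seed8.Y262.EG.Def

/-!
# Scars on a closed geodesic: uniform distribution along the geodesic, statements

All functions live on a strip around the line `Re z = x0`, periodic with the period `2πi`; the metric is
`w (Re z) |dz|²`.
-/

set_option autoImplicit false

open Set Filter Topology MeasureTheory
open scoped ContDiff Real

noncomputable section

namespace Pool.Agent.H240.AL

open Pool.Agent.Y262.EG

/-- the strip -/
def Sx (x0 R : ℝ) : Set ℂ := {z | |z.re - x0| < R}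

/-- a fundamental domain of the strip -/
def Qx (x0 r : ℝ) : Set ℂ := {z | |z.re - x0| < r ∧ z.im ∈ Ioc 0 (2 * π)}

/-- periodic solutions of the equation `Δ v = - lam w v` -/
structure Sol (x0 R : ℝ) (w : ℝ → ℝ) (lam : ℝ) (v : ℂ → ℝ) : Prop where
  sm : ContDiffOn ℝ ∞ v (Sx x0 R)
  per : ∀ z ∈ Sx x0 R, v (z + 2 * π * Complex.I) = v z
  eq : ∀ z ∈ Sx x0 R, px (px v) z + py (py v) z = -(lam * w z.re * v z)

/-- cutoff functions of the variable `x` -/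
structure Ct (x0 R : ℝ) (a : ℝ → ℝ) : Prop where
  sm : ContDiff ℝ ∞ a
  sup : ∃ r : ℝ, 0 < r ∧ r < R ∧ ∀ x, r ≤ |x - x0| → a x = 0

/-- smooth periodic functions of the variable `y` -/
structure Pf (b : ℝ → ℝ) : Prop where
  sm : ContDiff ℝ ∞ b
  per : ∀ y, b (y + 2 * π) = b y

/-- integrability -/
def StInt : Prop :=
  ∀ (x0 R : ℝ) (a : ℝ → ℝ) (f : ℂ → ℝ), Ct x0 R a → ContinuousOn f (Sx x0 R) →
    IntegrableOn (fun z => a z.re * f z) (Qx x0 R)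

/-- the divergence theorem: `F` has compact support in the direction of `x`, `H` is periodic -/
def StDiv : Prop :=
  ∀ (x0 R : ℝ) (F H : ℂ → ℝ), ContDiffOn ℝ 1 F (Sx x0 R) → ContDiffOn ℝ 1 H (Sx x0 R) →
    (∃ r : ℝ, 0 < r ∧ r < R ∧ ∀ z ∈ Sx x0 R, r ≤ |z.re - x0| → F z = 0 ∧ H z = 0) →
    (∀ z ∈ Sx x0 R, H (z + 2 * π * Complex.I) = H z) →
    ∫ z in Qx x0 R, (px F z + py H z) = 0

/-- the energy identity and the identities of Rellich -/
def StId : Prop :=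
  ∀ (x0 R lam : ℝ) (w a b : ℝ → ℝ) (v : ℂ → ℝ), ContDiffOn ℝ ∞ w (Ioo (x0 - R) (x0 + R)) →
    Sol x0 R w lam v → Ct x0 R a → Pf b →
    ∫ z in Qx x0 R, a z.re * b z.im * ((px v z) ^ 2 + (py v z) ^ 2 - lam * w z.re * (v z) ^ 2) =
      1 / 2 * ∫ z in Qx x0 R, (deriv (deriv a) z.re * b z.im + a z.re * deriv (deriv b) z.im) *
        (v z) ^ 2 ∧
    ∫ z in Qx x0 R, a z.re * deriv b z.im *
        ((py v z) ^ 2 - (px v z) ^ 2 + lam * w z.re * (v z) ^ 2) =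
      -(2 * ∫ z in Qx x0 R, deriv a z.re * b z.im * (px v z * py v z)) ∧
    ∫ z in Qx x0 R, deriv a z.re * ((px v z) ^ 2 - (py v z) ^ 2 + lam * w z.re * (v z) ^ 2) =
      -(lam * ∫ z in Qx x0 R, a z.re * deriv w z.re * (v z) ^ 2)

/-- Solutions with large `lam` whose mass concentrates on the line are uniformly distributed along
the line, tested with derivatives of periodic functions. -/
def StLim : Prop :=
  ∀ (x0 R : ℝ) (w : ℝ → ℝ) (l : Filter ℕ) (v : ℕ → ℂ → ℝ) (lam : ℕ → ℝ), 0 < R →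
    ContDiffOn ℝ ∞ w (Ioo (x0 - R) (x0 + R)) → (∀ x ∈ Ioo (x0 - R) (x0 + R), 0 < w x) →
    (∀ j, Sol x0 R w (lam j) (v j)) → Tendsto lam l atTop →
    (∀ j, IntegrableOn (fun z => w z.re * (v j z) ^ 2) (Qx x0 R)) →
    (∀ j, ∫ z in Qx x0 R, w z.re * (v j z) ^ 2 ≤ 1) →
    (∀ r : ℝ, 0 < r → r < R →
      Tendsto (fun j => ∫ z in Qx x0 R \ Qx x0 r, w z.re * (v j z) ^ 2) l (𝓝 0)) →
    ∀ a b : ℝ → ℝ, Ct x0 R a → (∃ r1 : ℝ, 0 < r1 ∧ ∀ x, |x - x0| ≤ r1 → a x = 1) → Pf b →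
    Tendsto (fun j => ∫ z in Qx x0 R, a z.re * deriv b z.im * (w z.re * (v j z) ^ 2)) l (𝓝 0)

/-- from derivatives of periodic functions to all continuous periodic functions -/
def StEqui : Prop :=
  ∀ (x0 R : ℝ) (l : Filter ℕ) (g : ℕ → ℂ → ℝ), 0 < R → (∀ j z, 0 ≤ g j z) →
    (∀ j, IntegrableOn (g j) (Qx x0 R)) → (∀ j, ∫ z in Qx x0 R, g j z ≤ 1) →
    (∀ r : ℝ, 0 < r → r < R → Tendsto (fun j => ∫ z in Qx x0 r, g j z) l (𝓝 1)) →
    (∀ a b : ℝ → ℝ, Ct x0 R a → (∃ r1 : ℝ, 0 < r1 ∧ ∀ x, |x - x0| ≤ r1 → a x = 1) → Pf b →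
      Tendsto (fun j => ∫ z in Qx x0 R, a z.re * deriv b z.im * g j z) l (𝓝 0)) →
    ∀ f : ℂ → ℝ, ContinuousOn f (Sx x0 R) →
      (∀ z ∈ Sx x0 R, f (z + 2 * π * Complex.I) = f z) → ∀ r : ℝ, 0 < r → r < R →
      Tendsto (fun j => ∫ z in Qx x0 r, f z * g j z) l
        (𝓝 ((2 * π)⁻¹ * ∫ y in (0 : ℝ)..(2 * π), f (x0 + y * Complex.I)))

end Pool.Agent.H240.AL
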