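import Pool.Agent.H240.AL.Def

/-!
# Uniform distribution along the line for continuous functions (StEqui)
-/

set_option autoImplicit false

open Set Filter Topology MeasureTheory
open scoped ContDiff Real Convolution

noncomputable section

namespace Pool.Agent.H240.AL.I4

open Pool.Agent.Y262.EG Pool.Agent.H240.AL

theorem meas_Qx (x0 r : ℝ) : MeasurableSet (Qx x0 r) := by
  have h1 : MeasurableSet {z : ℂ | |z.re - x0| < r} :=
    measurableSet_lt (continuous_abs.measurable.comp (Complex.measurable_re.sub_const x0))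
      measurable_const
  exact h1.inter (Complex.measurable_im measurableSet_Ioc)

theorem Qx_mono {x0 r s : ℝ} (h : r ≤ s) : Qx x0 r ⊆ Qx x0 s := fun _ hz =>
  ⟨lt_of_lt_of_le hz.1 h, hz.2⟩

/-- smooth periodic approximations -/
theorem approx {u : ℝ → ℝ} (hc : Continuous u) (hp : ∀ y, u (y + 2 * π) = u y) {ε : ℝ}
    (hε : 0 < ε) : ∃ p : ℝ → ℝ, Pf p ∧ ∀ y ∈ Icc 0 (2 * π), |p y - u y| ≤ ε := by
  have huc := (isCompact_Icc (a := (-1 : ℝ)) (b := 2 * π + 1)).uniformContinuousOn_of_continuous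
    hc.continuousOn
  obtain ⟨δ, hδ, h⟩ := Metric.uniformContinuousOn_iff.1 huc ε hε
  have hδ' : 0 < min δ 1 := lt_min hδ one_pos
  let φ : ContDiffBump (0 : ℝ) := ⟨min δ 1 / 2, min δ 1, by positivity, by linarith⟩
  refine ⟨(φ.normed volume) ⋆[ContinuousLinearMap.lsmul ℝ ℝ, volume] u, ⟨?_, ?_⟩, ?_⟩
  · exact φ.hasCompactSupport_normed.contDiff_convolution_left _ φ.contDiff_normed
      hc.locallyIntegrable
  · intro y
    simp only [convolution_def]
    congr 1
    funext t
    rw [show y + 2 * π - t = (y - t) + 2 * π by ring, hp]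
  · intro y hy
    have := φ.dist_normed_convolution_le (μ := volume) (x₀ := y) (g := u)
      hc.aestronglyMeasurable (ε := ε) (fun x hx => by
        have hx' : dist x y < min δ 1 := hx
        have h1 : |x - y| < 1 := (Real.dist_eq x y ▸ hx').trans_le (min_le_right _ _)
        have h2 := abs_lt.1 h1
        refine (h x ⟨by linarith [hy.1], by linarith [hy.2]⟩ y
          ⟨by linarith [hy.1], by linarith [hy.2]⟩ (hx'.trans_le (min_le_left _ _))).le)
    rwa [Real.dist_eq] at this

theorem approx2 {u : ℝ → ℝ} (hc : Continuous u) (hp : ∀ y, u (y + 2 * π) = u y) {ε : ℝ}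
    (hε : 0 < ε) : ∃ (b : ℝ → ℝ) (m : ℝ), Pf b ∧
      (∀ y ∈ Icc 0 (2 * π), |u y - (m + deriv b y)| ≤ ε) ∧ Continuous (deriv b) ∧
      |m - (2 * π)⁻¹ * ∫ y in (0 : ℝ)..(2 * π), u y| ≤ ε := by
  obtain ⟨p, hp1, hp2⟩ := approx hc hp hε
  have hpi : 0 < 2 * π := by positivity
  have hpc : Continuous p := hp1.sm.continuous
  set m := (2 * π)⁻¹ * ∫ y in (0 : ℝ)..(2 * π), p y with hm
  let b : ℝ → ℝ := fun y => ∫ t in (0 : ℝ)..y, (p t - m)
  have hc' : Continuous fun t => p t - m := hpc.sub continuous_const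
  have hd : ∀ y, HasDerivAt b (p y - m) y := fun y =>
    (hc'.integral_hasStrictDerivAt 0 y).hasDerivAt
  have hdb : deriv b = fun y => p y - m := funext fun y => (hd y).deriv
  refine ⟨b, m, ⟨?_, ?_⟩, ?_, ?_, ?_⟩
  · rw [contDiff_infty_iff_deriv, hdb]
    exact ⟨fun y => (hd y).differentiableAt, hp1.sm.sub contDiff_const⟩
  · intro y
    have hper : Function.Periodic (fun t => p t - m) (2 * π) := fun t => by
      simp only [hp1.per t]
    have h1 : b (y + 2 * π) = b y + ∫ t in y..(y + 2 * π), (p t - m) :=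
      (intervalIntegral.integral_add_adjacent_intervals (hc'.intervalIntegrable _ _)
        (hc'.intervalIntegrable _ _)).symm
    rw [h1, hper.intervalIntegral_add_eq y 0, zero_add,
      intervalIntegral.integral_sub (hpc.intervalIntegrable _ _) (by simp)]
    rw [intervalIntegral.integral_const, smul_eq_mul, sub_zero, hm]
    field_simp
    ring
  · intro y hy
    rw [hdb]
    have := hp2 y hy
    rw [abs_sub_comm]
    have e : m + (p y - m) - u y = p y - u y := by ring
    simp only [e]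
    exact this
  · rw [hdb]; exact hc'
  · have h1 : m - (2 * π)⁻¹ * ∫ y in (0 : ℝ)..(2 * π), u y =
        (2 * π)⁻¹ * ∫ y in (0 : ℝ)..(2 * π), (p y - u y) := by
      rw [intervalIntegral.integral_sub (hpc.intervalIntegrable _ _)
        (hc.intervalIntegrable _ _), hm]
      ring
    rw [h1, abs_mul, abs_of_pos (inv_pos.2 hpi)]
    have h2 : ‖∫ y in (0 : ℝ)..(2 * π), (p y - u y)‖ ≤ ε * |2 * π - 0| :=
      intervalIntegral.norm_integral_le_of_norm_le_const fun y hy => by
        rw [uIoc_of_le hpi.le] at hy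
        exact hp2 y ⟨hy.1.le, hy.2⟩
    rw [Real.norm_eq_abs, sub_zero, abs_of_pos hpi] at h2
    rw [inv_mul_le_iff₀ hpi]
    linarith


/-- a smooth cutoff, `1` for `|x - x0| ≤ s / 2`, with support in `|x - x0| ≤ 3 s / 4` -/
theorem cutoff {x0 R s : ℝ} (hs : 0 < s) (hsR : s ≤ R) : ∃ a : ℝ → ℝ, Ct x0 R a ∧
    (∀ x, |x - x0| ≤ s / 2 → a x = 1) ∧ ∀ x, |a x| ≤ 1 := by
  let φ : ContDiffBump x0 := ⟨s / 2, 3 * s / 4, by positivity, by linarith⟩
  refine ⟨φ, ⟨φ.contDiff, 3 * s / 4, by positivity, by linarith, fun x hx => ?_⟩, fun x hx => ?_,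
    fun x => ?_⟩
  · exact φ.zero_of_le_dist (by rw [Real.dist_eq]; exact hx)
  · exact φ.one_of_mem_closedBall (by rw [Metric.mem_closedBall, Real.dist_eq]; exact hx)
  · rw [abs_of_nonneg φ.nonneg]; exact φ.le_one

theorem bound_diff {S T : Set ℂ} {h g : ℂ → ℝ} {B : ℝ} (hT : MeasurableSet T)
    (hS : MeasurableSet S) (hST : S ⊆ T) (hg : ∀ z, 0 ≤ g z) (hgi : IntegrableOn g T)
    (hhi : IntegrableOn (fun z => h z * g z) T) (hB : ∀ z ∈ T \ S, |h z| ≤ B) :
    |(∫ z in T, h z * g z) - ∫ z in S, h z * g z| ≤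
      B * ((∫ z in T, g z) - ∫ z in S, g z) := by
  rw [← integral_diff hS hhi hST, ← integral_diff hS hgi hST, ← integral_const_mul]
  have h1 : ‖∫ z in T \ S, h z * g z‖ ≤ ∫ z in T \ S, B * g z := by
    refine norm_integral_le_of_norm_le ((hgi.mono_set diff_subset).const_mul B) ?_
    refine (ae_restrict_iff' (hT.diff hS)).2 (Eventually.of_forall fun z hz => ?_)
    rw [Real.norm_eq_abs, abs_mul, abs_of_nonneg (hg z)]
    exact mul_le_mul_of_nonneg_right (hB z hz) (hg z)
  exact h1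

theorem stEqui : StEqui := by
  intro x0 R l g hR hg hgi hg1 hlim hab f hf hper r hr hrR
  have hpi : 0 < 2 * π := by positivity
  -- the function on the line
  let u : ℝ → ℝ := fun y => f (x0 + y * Complex.I)
  have hline : ∀ y : ℝ, (x0 + y * Complex.I : ℂ) ∈ Sx x0 R := fun y => by
    change |(x0 + y * Complex.I : ℂ).re - x0| < R
    simp [hR]
  have hu : Continuous u :=
    hf.comp_continuous (by fun_prop) hline
  have hup : ∀ y, u (y + 2 * π) = u y := fun y => by
    have := hper _ (hline y)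
    change f _ = f _
    rw [← this]
    congr 1
    push_cast
    ring
  -- the compact set
  let Kc : Set ℂ := {z | |z.re - x0| ≤ r ∧ z.im ∈ Icc 0 (2 * π)}
  have hKS : Kc ⊆ Sx x0 R := fun z hz => lt_of_le_of_lt hz.1 hrR
  have hKc : IsCompact Kc := by
    have h1 : Kc = Icc (x0 - r) (x0 + r) ×ℂ Icc 0 (2 * π) := by
      ext z
      simp only [Kc, mem_setOf_eq, Complex.mem_reProdIm, mem_Icc, abs_le]
      constructor
      · rintro ⟨⟨a, b⟩, c⟩; exact ⟨⟨by linarith, by linarith⟩, c⟩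
      · rintro ⟨⟨a, b⟩, c⟩; exact ⟨⟨by linarith, by linarith⟩, c⟩
    rw [h1]
    exact isCompact_Icc.reProdIm isCompact_Icc
  have hfK : ContinuousOn f Kc := hf.mono hKS
  obtain ⟨Bf, hBf⟩ := hKc.exists_bound_of_continuousOn hfK
  have hQK : ∀ {s : ℝ}, s ≤ r → Qx x0 s ⊆ Kc := fun hs z hz =>
    ⟨(hz.1.trans_le hs).le, hz.2.1.le, hz.2.2⟩
  have hBf0 : 0 ≤ Bf := by
    have h1 : (x0 : ℂ) ∈ Kc := ⟨by simp [hr.le], by simp [hpi.le]⟩
    exact (norm_nonneg _).trans (hBf _ h1)
  rw [Metric.tendsto_nhds]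
  intro η hη
  set M0 := (2 * π)⁻¹ * ∫ y in (0 : ℝ)..(2 * π), f (x0 + y * Complex.I) with hM0
  obtain ⟨b, m, hb, hbu, hbc, hm⟩ := approx2 hu hup (ε := η / 8) (by positivity)
  -- uniform continuity
  obtain ⟨δ, hδ, huc⟩ := Metric.uniformContinuousOn_iff.1
    (hKc.uniformContinuousOn_of_continuous hfK) (η / 8) (by positivity)
  obtain ⟨s, hs, hsδ, hsr⟩ : ∃ s : ℝ, 0 < s ∧ s ≤ δ ∧ s ≤ r :=
    ⟨min δ r, lt_min hδ hr, min_le_left _ _, min_le_right _ _⟩
  have hclose : ∀ z ∈ Qx x0 s, |f z - (m + deriv b z.im)| ≤ η / 4 := by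
    intro z hz
    have h1 : z ∈ Kc := hQK hsr hz
    have h2 : (x0 + z.im * Complex.I : ℂ) ∈ Kc := by
      refine ⟨?_, ?_⟩
      · simp [hr.le]
      · simpa using h1.2
    have h3 : dist z (x0 + z.im * Complex.I : ℂ) < δ := by
      rw [Complex.dist_eq]
      have : z - (x0 + z.im * Complex.I : ℂ) = ((z.re - x0 : ℝ) : ℂ) := by
        apply Complex.ext <;> simp
      rw [this, Complex.norm_real, Real.norm_eq_abs]
      exact hz.1.trans_le hsδ
    have h4 := huc z h1 _ h2 h3
    rw [Real.dist_eq] at h4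
    have h5 := hbu z.im h1.2
    have h6 : f z - (m + deriv b z.im) = (f z - f (x0 + z.im * Complex.I)) +
      (u z.im - (m + deriv b z.im)) := by simp only [u]; ring
    rw [h6]
    refine (abs_add_le _ _).trans ?_
    linarith
  -- bound of `b'`
  set Bb := Bf + η / 8 + |m| with hBb
  have hbb : ∀ y ∈ Icc 0 (2 * π), |deriv b y| ≤ Bb := by
    intro y hy
    have h1 := hbu y hy
    have h2 : |u y| ≤ Bf := hBf _ ⟨by simp [hr.le], by simpa using hy⟩
    have h3 : deriv b y = u y - (u y - (m + deriv b y)) - m := by ring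
    rw [h3]
    refine (abs_sub _ _).trans ?_
    have := abs_sub (u y) (u y - (m + deriv b y))
    linarith
  obtain ⟨a, ha, ha1, hab1⟩ := cutoff (x0 := x0) (R := R) hs (hsr.trans hrR.le)
  have hJ := hab a b ha ⟨s / 2, by positivity, ha1⟩ hb
  -- integrability
  have mf : ∀ {t : ℝ}, AEStronglyMeasurable f (volume.restrict (Qx x0 r)) :=
    fun {t} => (hf.mono (fun z hz => hz.1.trans hrR)).aestronglyMeasurable (meas_Qx _ _)
  have i1 : ∀ j, IntegrableOn (fun z => f z * g j z) (Qx x0 r) := fun j =>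
    ((hgi j).mono_set (Qx_mono hrR.le)).bdd_mul (c := Bf) (mf (t := 0))
      ((ae_restrict_iff' (meas_Qx _ _)).2 (Eventually.of_forall fun z hz => hBf z (hQK le_rfl hz)))
  have i2 : ∀ j, IntegrableOn (fun z => a z.re * deriv b z.im * g j z) (Qx x0 R) := fun j =>
    (hgi j).bdd_mul (c := Bb)
      (((ha.sm.continuous.comp Complex.continuous_re).mul
        (hbc.comp Complex.continuous_im)).aestronglyMeasurable)
      ((ae_restrict_iff' (meas_Qx _ _)).2 (Eventually.of_forall fun z hz => by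
        change |a z.re * deriv b z.im| ≤ Bb
        rw [abs_mul]
        have h1 := hbb z.im ⟨hz.2.1.le, hz.2.2⟩
        have h2 := hab1 z.re
        nlinarith [abs_nonneg (deriv b z.im), abs_nonneg (a z.re)]))
  have hs2 : 0 < s / 2 := by positivity
  have hG := hlim (s / 2) hs2 (by linarith)
  have key : ∀ j, |(∫ z in Qx x0 r, f z * g j z) - M0| ≤
      η / 4 + |m| * |(∫ z in Qx x0 (s / 2), g j z) - 1| + η / 8 +
        |∫ z in Qx x0 R, a z.re * deriv b z.im * g j z| +
        (Bf + Bb) * |(∫ z in Qx x0 (s / 2), g j z) - 1| := by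
    intro j
    set G := ∫ z in Qx x0 (s / 2), g j z with hGd
    have sub1 : Qx x0 (s / 2) ⊆ Qx x0 r := Qx_mono (by linarith)
    have sub2 : Qx x0 (s / 2) ⊆ Qx x0 R := Qx_mono (by linarith)
    have e1 := bound_diff (B := Bf) (meas_Qx x0 r) (meas_Qx x0 (s / 2)) sub1 (hg j)
      ((hgi j).mono_set (Qx_mono hrR.le)) (i1 j) (fun z hz => hBf z (hQK le_rfl hz.1))
    have e2 := bound_diff (h := fun z => a z.re * deriv b z.im) (B := Bb) (meas_Qx x0 R)
      (meas_Qx x0 (s / 2)) sub2 (hg j) (hgi j) (i2 j) (fun z hz => by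
        rw [abs_mul]
        have h1 := hbb z.im ⟨hz.1.2.1.le, hz.1.2.2⟩
        have h2 := hab1 z.re
        nlinarith [abs_nonneg (deriv b z.im), abs_nonneg (a z.re)])
    have m1 : ∫ z in Qx x0 r, g j z ≤ ∫ z in Qx x0 R, g j z :=
      setIntegral_mono_set (hgi j) (Eventually.of_forall fun z => hg j z)
        (Qx_mono hrR.le).eventuallyLE
    have m2 : G ≤ ∫ z in Qx x0 r, g j z :=
      setIntegral_mono_set ((hgi j).mono_set (Qx_mono hrR.le))
        (Eventually.of_forall fun z => hg j z) sub1.eventuallyLE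
    have m3 := hg1 j
    have m0 : 0 ≤ G := integral_nonneg fun z => hg j z
    have e3 : |(∫ z in Qx x0 (s / 2), f z * g j z) - (m * G +
        ∫ z in Qx x0 (s / 2), a z.re * deriv b z.im * g j z)| ≤ η / 4 := by
      have i3 : IntegrableOn (fun z => f z * g j z) (Qx x0 (s / 2)) := (i1 j).mono_set sub1
      have i4 : IntegrableOn (fun z => a z.re * deriv b z.im * g j z) (Qx x0 (s / 2)) :=
        (i2 j).mono_set sub2
      have i5 : IntegrableOn (g j) (Qx x0 (s / 2)) := (hgi j).mono_set sub2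
      have i6 : IntegrableOn (fun z => m * g j z) (Qx x0 (s / 2)) := i5.const_mul m
      have i7 : IntegrableOn (fun z => m * g j z + a z.re * deriv b z.im * g j z)
          (Qx x0 (s / 2)) := i6.add i4
      rw [hGd, ← integral_const_mul, ← integral_add i6 i4, ← integral_sub i3 i7]
      have h1 : ‖∫ z in Qx x0 (s / 2), (f z * g j z - (m * g j z +
          a z.re * deriv b z.im * g j z))‖ ≤ ∫ z in Qx x0 (s / 2), η / 4 * g j z := by
        refine norm_integral_le_of_norm_le (i5.const_mul _) ?_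
        refine (ae_restrict_iff' (meas_Qx _ _)).2 (Eventually.of_forall fun z hz => ?_)
        rw [ha1 z.re hz.1.le]
        have h2 : f z * g j z - (m * g j z + 1 * deriv b z.im * g j z) =
          (f z - (m + deriv b z.im)) * g j z := by ring
        rw [h2, Real.norm_eq_abs, abs_mul, abs_of_nonneg (hg j z)]
        exact mul_le_mul_of_nonneg_right (hclose z (Qx_mono (by linarith) hz)) (hg j z)
      rw [integral_const_mul] at h1
      refine h1.trans ?_
      nlinarith
    have hG1 : |G - 1| = 1 - G := by rw [abs_sub_comm, abs_of_nonneg (by linarith)]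
    have hBb0 : 0 ≤ Bb := (abs_nonneg _).trans (hbb 0 ⟨le_rfl, hpi.le⟩)
    have hmm : |m * G - M0| ≤ |m| * |G - 1| + η / 8 := by
      have : m * G - M0 = m * (G - 1) + (m - M0) := by ring
      rw [this]
      refine (abs_add_le _ _).trans ?_
      rw [abs_mul]
      have : |m - M0| ≤ η / 8 := hm
      linarith
    have e1' : |(∫ z in Qx x0 r, f z * g j z) - ∫ z in Qx x0 (s / 2), f z * g j z| ≤
        Bf * |G - 1| := e1.trans (by
      rw [hG1]; exact mul_le_mul_of_nonneg_left (by linarith) hBf0)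
    have e2' : |(∫ z in Qx x0 R, a z.re * deriv b z.im * g j z) -
        ∫ z in Qx x0 (s / 2), a z.re * deriv b z.im * g j z| ≤ Bb * |G - 1| := e2.trans (by
      rw [hG1]; exact mul_le_mul_of_nonneg_left (by linarith) hBb0)
    have t1 := abs_le.1 e1'
    have t2 := abs_le.1 e2'
    have t3 := abs_le.1 e3
    have t4 := abs_le.1 hmm
    have t5 := abs_le.1 (le_refl |∫ z in Qx x0 R, a z.re * deriv b z.im * g j z|)
    rw [abs_le]
    constructor <;> nlinarith
  have hT : Tendsto (fun j => η / 4 + |m| * |(∫ z in Qx x0 (s / 2), g j z) - 1| + η / 8 +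
        |∫ z in Qx x0 R, a z.re * deriv b z.im * g j z| +
        (Bf + Bb) * |(∫ z in Qx x0 (s / 2), g j z) - 1|) l
      (𝓝 (η / 4 + |m| * |(1 : ℝ) - 1| + η / 8 + |(0 : ℝ)| + (Bf + Bb) * |(1 : ℝ) - 1|)) := by
    have h1 := (hG.sub_const 1).abs
    exact (((tendsto_const_nhds.add (h1.const_mul _)).add tendsto_const_nhds).add
      hJ.abs).add (h1.const_mul _)
  have hlt : η / 4 + |m| * |(1 : ℝ) - 1| + η / 8 + |(0 : ℝ)| + (Bf + Bb) * |(1 : ℝ) - 1| < η := by
    rw [sub_self, abs_zero, mul_zero, mul_zero]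
    linarith
  filter_upwards [hT.eventually_lt_const hlt] with j hj
  rw [Real.dist_eq]
  exact (key j).trans_lt hj

end Pool.Agent.H240.AL.I4
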