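import Pool.Agent.H240.AL.Def

/-!
# Integrability and the divergence theorem on a periodic strip (helper297)
-/

set_option autoImplicit false

open Set Filter Topology MeasureTheory
open scoped ContDiff Real

noncomputable section

namespace Pool.Agent.H240.AL.I1

open Pool.Agent.Y262.EG Pool.Agent.H240.AL

lemma isOpen_Sx (x0 R : ℝ) : IsOpen (Sx x0 R) := by
  have h1 : Continuous fun z : ℂ => |z.re - x0| := by fun_prop
  exact isOpen_lt h1 continuous_const

lemma measurableSet_Qx (x0 R : ℝ) : MeasurableSet (Qx x0 R) :=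
  (isOpen_Sx x0 R).measurableSet.inter (Complex.measurable_im measurableSet_Ioc)

/-- compact rectangle -/
def Kx (x0 r : ℝ) : Set ℂ := {z | |z.re - x0| ≤ r ∧ z.im ∈ Icc 0 (2 * π)}

lemma isCompact_Kx (x0 r : ℝ) : IsCompact (Kx x0 r) := by
  have h1 : Kx x0 r = Icc (x0 - r) (x0 + r) ×ℂ Icc 0 (2 * π) := by
    ext z
    rw [Complex.mem_reProdIm]
    refine and_congr ?_ Iff.rfl
    rw [abs_le, mem_Icc]
    constructor
    · rintro ⟨h1, h2⟩; exact ⟨by linarith, by linarith⟩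
    · rintro ⟨h1, h2⟩; exact ⟨by linarith, by linarith⟩
  rw [h1]
  exact isCompact_Icc.reProdIm isCompact_Icc

theorem stInt : StInt := by
  intro x0 R a f ha hf
  obtain ⟨r, hr0, hrR, hr⟩ := ha.sup
  have hK : IntegrableOn (fun z => a z.re * f z) (Kx x0 r) := by
    refine ContinuousOn.integrableOn_compact (isCompact_Kx x0 r) ?_
    refine ContinuousOn.mul (ha.sm.continuous.comp Complex.continuous_re).continuousOn
      (hf.mono ?_)
    intro z hz
    exact lt_of_le_of_lt hz.1 hrR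
  have h0 : IntegrableOn (fun z => a z.re * f z) (Qx x0 R \ Kx x0 r) := by
    refine IntegrableOn.congr_fun (f := fun _ => (0 : ℝ)) integrableOn_zero (fun z hz => ?_)
      ((measurableSet_Qx x0 R).diff (isCompact_Kx x0 r).measurableSet)
    have h1 : r ≤ |z.re - x0| := by
      by_contra hcon
      push Not at hcon
      exact hz.2 ⟨hcon.le, Ioc_subset_Icc_self hz.1.2⟩
    simp only [hr _ h1, zero_mul]
  refine (hK.union h0).mono_set fun z hz => ?_
  by_cases h1 : z ∈ Kx x0 r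
  · exact Or.inl h1
  · exact Or.inr ⟨hz, h1⟩

theorem stDiv : StDiv := by
  intro x0 R F H hF hH hsup hper
  obtain ⟨r, hr0, hrR, hr⟩ := hsup
  obtain ⟨ρ, hrρ, hρR⟩ := exists_between hrR
  have hπ : (0 : ℝ) < 2 * π := by positivity
  have hS := isOpen_Sx x0 R
  set G : ℂ → ℝ := fun z => px F z + py H z with hG
  -- `G` vanishes away from the line
  have hG0 : ∀ z ∈ Sx x0 R, r < |z.re - x0| → G z = 0 := by
    intro z hz hrz
    have hopen : IsOpen {w : ℂ | r < |w.re - x0|} := by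
      have h1 : Continuous fun z : ℂ => |z.re - x0| := by fun_prop
      exact isOpen_lt continuous_const h1
    have hmem : {w : ℂ | r < |w.re - x0|} ∩ Sx x0 R ∈ 𝓝 z := (hopen.inter hS).mem_nhds ⟨hrz, hz⟩
    have hF0 : F =ᶠ[𝓝 z] fun _ => (0 : ℝ) := by
      filter_upwards [hmem] with w hw
      exact (hr w hw.2 (le_of_lt hw.1)).1
    have hH0 : H =ᶠ[𝓝 z] fun _ => (0 : ℝ) := by
      filter_upwards [hmem] with w hw
      exact (hr w hw.2 (le_of_lt hw.1)).2
    simp only [hG, px, py]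
    rw [hF0.fderiv_eq, hH0.fderiv_eq, fderiv_fun_const]
    simp
  have hQ : Qx x0 ρ ⊆ Qx x0 R := fun z hz => ⟨hz.1.trans hρR, hz.2⟩
  rw [setIntegral_eq_of_subset_of_forall_sdiff_eq_zero (measurableSet_Qx x0 R) hQ
    (fun z hz => hG0 z hz.1.1 (by
      have h1 : ¬ |z.re - x0| < ρ := fun h => hz.2 ⟨h, hz.1.2⟩
      push Not at h1
      linarith))]
  -- transfer to the product
  set e := Complex.measurableEquivRealProd.symm with he
  have hev : ∀ p : ℝ × ℝ, e p = p.1 + p.2 * Complex.I := by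
    intro p
    rw [he]
    exact Complex.equivRealProd_symm_apply p
  have hre : ∀ p : ℝ × ℝ, (e p).re = p.1 := by intro p; rw [hev]; simp
  have him : ∀ p : ℝ × ℝ, (e p).im = p.2 := by intro p; rw [hev]; simp
  have h2 := (Complex.volume_preserving_equiv_real_prod.symm _).setIntegral_preimage_emb
    (MeasurableEquiv.measurableEmbedding _) G (Qx x0 ρ)
  rw [← h2]
  have hpre : (Complex.measurableEquivRealProd.symm : ℝ × ℝ → ℂ) ⁻¹' Qx x0 ρ =
      Ioo (x0 - ρ) (x0 + ρ) ×ˢ Ioc 0 (2 * π) := by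
    ext p
    have h3 : (e p).re = p.1 := hre p
    have h4 : (e p).im = p.2 := him p
    show (|(e p).re - x0| < ρ ∧ (e p).im ∈ Ioc 0 (2 * π)) ↔ _
    rw [h3, h4, mem_prod, mem_Ioo, abs_lt]
    constructor
    · rintro ⟨⟨h5, h6⟩, h7⟩; exact ⟨⟨by linarith, by linarith⟩, h7⟩
    · rintro ⟨⟨h5, h6⟩, h7⟩; exact ⟨⟨by linarith, by linarith⟩, h7⟩
  rw [hpre]
  -- continuity of `G`
  have hGc : ContinuousOn G (Sx x0 R) := by
    have h3 := hF.continuousOn_fderiv_of_isOpen hS le_rfl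
    have h4 := hH.continuousOn_fderiv_of_isOpen hS le_rfl
    exact (h3.clm_apply continuousOn_const).add (h4.clm_apply continuousOn_const)
  have hec : Continuous (fun p : ℝ × ℝ => ((p.1 : ℂ) + p.2 * Complex.I)) := by fun_prop
  have hmaps : ∀ p ∈ Icc (x0 - ρ) (x0 + ρ) ×ˢ Icc 0 (2 * π),
      ((p.1 : ℂ) + p.2 * Complex.I) ∈ Sx x0 R := by
    rintro p ⟨hp1, -⟩
    show |((p.1 : ℂ) + p.2 * Complex.I).re - x0| < R
    have h3 : ((p.1 : ℂ) + p.2 * Complex.I).re = p.1 := by simp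
    rw [h3, abs_lt]
    exact ⟨by linarith [hp1.1], by linarith [hp1.2]⟩
  have hint : IntegrableOn (fun p : ℝ × ℝ => G (p.1 + p.2 * Complex.I))
      (Icc (x0 - ρ) (x0 + ρ) ×ˢ Icc 0 (2 * π)) :=
    (hGc.comp hec.continuousOn hmaps).integrableOn_compact (isCompact_Icc.prod isCompact_Icc)
  have h5 : ∫ p in Ioo (x0 - ρ) (x0 + ρ) ×ˢ Ioc 0 (2 * π), G (e p) =
      ∫ p in Ioo (x0 - ρ) (x0 + ρ) ×ˢ Ioc 0 (2 * π), G (p.1 + p.2 * Complex.I) := by
    refine integral_congr_ae (Filter.Eventually.of_forall fun p => ?_)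
    simp only [hev]
  have h5' : ∫ x in Ioo (x0 - ρ) (x0 + ρ) ×ˢ Ioc 0 (2 * π),
      G (Complex.measurableEquivRealProd.symm x) =
      ∫ p in Ioo (x0 - ρ) (x0 + ρ) ×ˢ Ioc 0 (2 * π), G (p.1 + p.2 * Complex.I) := h5
  rw [h5', Measure.volume_eq_prod, setIntegral_prod _ (by
    rw [← Measure.volume_eq_prod]
    exact hint.mono_set (prod_mono Ioo_subset_Icc_self Ioc_subset_Icc_self))]
  have hab : x0 - ρ ≤ x0 + ρ := by linarith
  rw [← integral_Ioc_eq_integral_Ioo, ← intervalIntegral.integral_of_le hab]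
  have h6 : ∀ x : ℝ, ∫ y in Ioc 0 (2 * π), G ((x : ℂ) + (y : ℝ) * Complex.I) =
      ∫ y in (0 : ℝ)..(2 * π), G ((x : ℂ) + (y : ℝ) * Complex.I) := fun x => by
    rw [intervalIntegral.integral_of_le hπ.le]
  simp only [h6]
  -- the divergence theorem
  set E : ℝ × ℝ →L[ℝ] ℂ := (Complex.equivRealProdCLM.symm : ℝ × ℝ →L[ℝ] ℂ) with hE
  have hEv : ∀ p : ℝ × ℝ, E p = p.1 + p.2 * Complex.I := fun p =>
    Complex.equivRealProdCLM_symm_apply p
  have hE1 : E (1, 0) = 1 := by rw [hEv]; simp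
  have hE2 : E (0, 1) = Complex.I := by rw [hEv]; simp
  have hder : ∀ (K : ℂ → ℝ), ContDiffOn ℝ 1 K (Sx x0 R) → ∀ p : ℝ × ℝ, E p ∈ Sx x0 R →
      HasFDerivAt (fun p : ℝ × ℝ => K (E p)) ((fderiv ℝ K (E p)).comp E) p := by
    intro K hK p hp
    have h7 : DifferentiableAt ℝ K (E p) :=
      (hK.differentiableOn one_ne_zero).differentiableAt (hS.mem_nhds hp)
    exact h7.hasFDerivAt.comp p E.hasFDerivAt
  have hEmaps : ∀ p ∈ Icc (x0 - ρ) (x0 + ρ) ×ˢ Icc 0 (2 * π), E p ∈ Sx x0 R := by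
    intro p hp
    rw [hEv]
    exact hmaps p hp
  have huI : uIcc (x0 - ρ) (x0 + ρ) ×ˢ uIcc (0 : ℝ) (2 * π) =
      Icc (x0 - ρ) (x0 + ρ) ×ˢ Icc 0 (2 * π) := by
    rw [uIcc_of_le hab, uIcc_of_le hπ.le]
  have key := integral2_divergence_prod_of_hasFDerivAt_off_countable
    (fun p : ℝ × ℝ => F (E p)) (fun p : ℝ × ℝ => H (E p))
    (fun p => (fderiv ℝ F (E p)).comp E) (fun p => (fderiv ℝ H (E p)).comp E)
    (x0 - ρ) 0 (x0 + ρ) (2 * π) ∅ countable_empty
    (by
      rw [huI]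
      exact hF.continuousOn.comp E.continuous.continuousOn hEmaps)
    (by
      rw [huI]
      exact hH.continuousOn.comp E.continuous.continuousOn hEmaps)
    (by
      intro p hp
      rw [min_eq_left hab, max_eq_right hab, min_eq_left hπ.le, max_eq_right hπ.le] at hp
      exact hder F hF p (hEmaps p ⟨Ioo_subset_Icc_self hp.1.1, Ioo_subset_Icc_self hp.1.2⟩))
    (by
      intro p hp
      rw [min_eq_left hab, max_eq_right hab, min_eq_left hπ.le, max_eq_right hπ.le] at hp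
      exact hder H hH p (hEmaps p ⟨Ioo_subset_Icc_self hp.1.1, Ioo_subset_Icc_self hp.1.2⟩))
    (by
      rw [huI]
      refine hint.congr_fun (fun p _ => ?_) (measurableSet_Icc.prod measurableSet_Icc)
      simp only [hG, px, py, ContinuousLinearMap.comp_apply, hE1, hE2, hEv])
  have h7 : ∫ x in (x0 - ρ)..(x0 + ρ), ∫ y in (0 : ℝ)..(2 * π),
      G ((x : ℂ) + (y : ℝ) * Complex.I) =
      ∫ x in (x0 - ρ)..(x0 + ρ), ∫ y in (0 : ℝ)..(2 * π),
        ((fderiv ℝ F (E (x, y))).comp E) (1, 0) + ((fderiv ℝ H (E (x, y))).comp E) (0, 1) := by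
    simp only [hG, px, py, ContinuousLinearMap.comp_apply, hE1, hE2, hEv]
  rw [h7, key]
  have h8 : ∫ x in (x0 - ρ)..(x0 + ρ), H (E (x, 2 * π)) =
      ∫ x in (x0 - ρ)..(x0 + ρ), H (E (x, 0)) := by
    refine intervalIntegral.integral_congr fun x hx => ?_
    rw [uIcc_of_le hab] at hx
    have h9 : E (x, 0) ∈ Sx x0 R := hEmaps _ ⟨hx, ⟨le_rfl, hπ.le⟩⟩
    have h10 := hper _ h9
    have h11 : E (x, 2 * π) = E (x, 0) + 2 * π * Complex.I := by
      rw [hEv, hEv]; push_cast; ring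
    simp only [h11, h10]
  have h12 : ∀ y ∈ Icc (0 : ℝ) (2 * π), F (E (x0 + ρ, y)) = 0 := by
    intro y hy
    refine (hr _ (hEmaps _ ⟨⟨hab, le_rfl⟩, hy⟩) ?_).1
    have h3 : (E (x0 + ρ, y)).re = x0 + ρ := by rw [hEv]; simp
    rw [h3, add_sub_cancel_left, abs_of_pos (by linarith)]
    exact hrρ.le
  have h13 : ∀ y ∈ Icc (0 : ℝ) (2 * π), F (E (x0 - ρ, y)) = 0 := by
    intro y hy
    refine (hr _ (hEmaps _ ⟨⟨le_rfl, hab⟩, hy⟩) ?_).1
    have h3 : (E (x0 - ρ, y)).re = x0 - ρ := by rw [hEv]; simp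
    rw [h3, sub_sub_cancel_left, abs_neg, abs_of_pos (by linarith)]
    exact hrρ.le
  have h14 : ∫ y in (0 : ℝ)..(2 * π), F (E (x0 + ρ, y)) = 0 := by
    rw [intervalIntegral.integral_congr (g := fun _ => (0 : ℝ)) fun y hy => ?_]
    · simp
    · rw [uIcc_of_le hπ.le] at hy
      exact h12 y hy
  have h15 : ∫ y in (0 : ℝ)..(2 * π), F (E (x0 - ρ, y)) = 0 := by
    rw [intervalIntegral.integral_congr (g := fun _ => (0 : ℝ)) fun y hy => ?_]
    · simp
    · rw [uIcc_of_le hπ.le] at hy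
      exact h13 y hy
  rw [h8, h14, h15]
  ring

end Pool.Agent.H240.AL.I1

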