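import Pool.Agent.H240.AL.Def

set_option autoImplicit false

open Set Filter Topology MeasureTheory
open scoped ContDiff Real

noncomputable section

namespace Pool.Agent.H240.AL.I3

open Pool.Agent.Y262.EG Pool.Agent.H240.AL

theorem Sx_open (x0 R : ℝ) : IsOpen (Sx x0 R) := by
  unfold Sx
  exact isOpen_lt (by fun_prop) continuous_const

theorem Qx_meas (x0 r : ℝ) : MeasurableSet (Qx x0 r) := by
  unfold Qx
  apply MeasurableSet.inter
  · exact (Sx_open x0 r).measurableSet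
  · exact Complex.measurable_im measurableSet_Ioc

theorem Qx_sub (x0 R : ℝ) : Qx x0 R ⊆ Sx x0 R := fun _ h => h.1

theorem Qx_Ioo {x0 R : ℝ} {z : ℂ} (h : z ∈ Sx x0 R) : z.re ∈ Ioo (x0 - R) (x0 + R) := by
  have : |z.re - x0| < R := h
  rw [abs_lt] at this
  constructor <;> linarith

theorem le_of_dom {f g : ℂ → ℝ} {S : Set ℂ} (hS : MeasurableSet S) (hg : IntegrableOn g S)
    (h : ∀ z ∈ S, |f z| ≤ g z) : |∫ z in S, f z| ≤ ∫ z in S, g z := by
  have h2 : ∀ᵐ z ∂(volume.restrict S), ‖f z‖ ≤ g z := by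
    filter_upwards [ae_restrict_mem hS] with z hz
    exact h z hz
  rw [← Real.norm_eq_abs]
  exact norm_integral_le_of_norm_le hg h2

section

variable {x0 R : ℝ} {w : ℝ → ℝ} {l : Filter ℕ} {v : ℕ → ℂ → ℝ} {lam : ℕ → ℝ}

theorem tend_zero
    (hw : ∀ x ∈ Ioo (x0 - R) (x0 + R), 0 < w x)
    (hint : ∀ j, IntegrableOn (fun z => w z.re * (v j z) ^ 2) (Qx x0 R))
    (hmass : ∀ j, ∫ z in Qx x0 R, w z.re * (v j z) ^ 2 ≤ 1)
    (hconc : ∀ r : ℝ, 0 < r → r < R →
      Tendsto (fun j => ∫ z in Qx x0 R \ Qx x0 r, w z.re * (v j z) ^ 2) l (𝓝 0))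
    (f : ℕ → ℂ → ℝ) (h : ℝ → ℝ) (C : ℝ) (hC : ∀ x, |x - x0| < R → h x ≤ C)
    (hsmall : ∀ ε : ℝ, 0 < ε → ∃ ρ : ℝ, 0 < ρ ∧ ρ < R ∧ ∀ x, |x - x0| < ρ → h x ≤ ε)
    (hf : ∀ j, ∀ z ∈ Qx x0 R, |f j z| ≤ h z.re * (w z.re * (v j z) ^ 2)) :
    Tendsto (fun j => ∫ z in Qx x0 R, f j z) l (𝓝 0) := by
  rw [Metric.tendsto_nhds]
  intro ε hε
  obtain ⟨ρ, hρ, hρR, hρs⟩ := hsmall (ε / 3) (by positivity)
  set C' := max C 0 + 1 with hC'
  have hC'0 : 0 < C' := by positivity
  have hev := (hconc ρ hρ hρR).eventually_lt_const (show (0 : ℝ) < ε / (3 * C') by positivity)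
  filter_upwards [hev] with j hj
  rw [dist_zero_right, Real.norm_eq_abs]
  set m : ℂ → ℝ := fun z => w z.re * (v j z) ^ 2 with hm
  have hm0 : ∀ z ∈ Qx x0 R, 0 ≤ m z := by
    intro z hz
    have := hw z.re (Qx_Ioo (Qx_sub x0 R hz))
    simp only [hm]
    positivity
  have hSm : MeasurableSet (Qx x0 R \ Qx x0 ρ) := (Qx_meas x0 R).diff (Qx_meas x0 ρ)
  have hg : IntegrableOn (fun z => ε / 3 * m z + (Qx x0 R \ Qx x0 ρ).indicator (fun z => C' * m z) z)
      (Qx x0 R) := by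
    apply Integrable.add ((hint j).const_mul _)
    exact ((hint j).const_mul C').indicator hSm
  have hle := le_of_dom (f := f j) (Qx_meas x0 R) hg (by
    intro z hz
    refine (hf j z hz).trans ?_
    by_cases hz2 : z ∈ Qx x0 ρ
    · rw [indicator_of_notMem (fun hh => hh.2 hz2), add_zero]
      exact mul_le_mul_of_nonneg_right (hρs _ hz2.1) (hm0 z hz)
    · rw [indicator_of_mem (show z ∈ Qx x0 R \ Qx x0 ρ from ⟨hz, hz2⟩)]
      have h1 : h z.re * m z ≤ C' * m z := by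
        apply mul_le_mul_of_nonneg_right _ (hm0 z hz)
        have := hC _ hz.1
        have h2 := le_max_left C 0
        linarith
      have h3 : 0 ≤ ε / 3 * m z := mul_nonneg (by positivity) (hm0 z hz)
      have h4 : h z.re * (w z.re * v j z ^ 2) = h z.re * m z := rfl
      linarith)
  have hval : ∫ z in Qx x0 R, (ε / 3 * m z + (Qx x0 R \ Qx x0 ρ).indicator (fun z => C' * m z) z) =
      ε / 3 * (∫ z in Qx x0 R, m z) + C' * ∫ z in Qx x0 R \ Qx x0 ρ, m z := by
    rw [integral_add ((hint j).const_mul _) (((hint j).const_mul C').indicator hSm),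
      integral_const_mul, setIntegral_indicator hSm, integral_const_mul]
    congr 3
    rw [inter_eq_right.2 sdiff_subset]
  rw [hval] at hle
  have h5 : C' * (∫ z in Qx x0 R \ Qx x0 ρ, m z) < ε / 3 := by
    have h6 := mul_lt_mul_of_pos_left hj hC'0
    have h7 : C' * (ε / (3 * C')) = ε / 3 := by field_simp
    rw [h7] at h6
    exact h6
  have h8 : ε / 3 * (∫ z in Qx x0 R, m z) ≤ ε / 3 := by
    have := hmass j
    nlinarith
  linarith

theorem bdd_of_sup {c : ℝ → ℝ} (hc : Continuous c) {r : ℝ} (hs : ∀ x, r ≤ |x - x0| → c x = 0) :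
    ∃ K : ℝ, 0 ≤ K ∧ ∀ x, |c x| ≤ K := by
  have hcs : HasCompactSupport c := by
    apply HasCompactSupport.intro (isCompact_closedBall x0 r)
    intro x hx
    apply hs
    rw [Metric.mem_closedBall, Real.dist_eq, not_le] at hx
    exact hx.le
  obtain ⟨K, hK⟩ := hcs.exists_bound_of_continuous hc
  exact ⟨K, (norm_nonneg _).trans (hK 0), hK⟩

/-- comparison with `w` -/
theorem dom_w (hw0 : ContinuousOn w (Ioo (x0 - R) (x0 + R)))
    (hw : ∀ x ∈ Ioo (x0 - R) (x0 + R), 0 < w x) {c : ℝ → ℝ}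
    (hc : ContinuousOn c (Ioo (x0 - R) (x0 + R))) {r : ℝ} (hr : r < R)
    (hs : ∀ x, r ≤ |x - x0| → c x = 0) :
    ∃ C : ℝ, 0 ≤ C ∧ ∀ x ∈ Ioo (x0 - R) (x0 + R), |c x| ≤ C * w x := by
  have hsub : Icc (x0 - r) (x0 + r) ⊆ Ioo (x0 - R) (x0 + R) := by
    intro x hx
    constructor
    · linarith [hx.1]
    · linarith [hx.2]
  have hcont : ContinuousOn (fun x => |c x| / w x) (Icc (x0 - r) (x0 + r)) := by
    apply ContinuousOn.div (hc.mono hsub).abs (hw0.mono hsub)
    intro x hx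
    exact (hw x (hsub hx)).ne'
  obtain ⟨C, hC⟩ := isCompact_Icc.bddAbove_image hcont
  refine ⟨max C 0, le_max_right _ _, fun x hx => ?_⟩
  have hwx := hw x hx
  by_cases h : r ≤ |x - x0|
  · rw [hs x h, abs_zero]
    positivity
  · push Not at h
    have hxI : x ∈ Icc (x0 - r) (x0 + r) := by
      rw [abs_lt] at h
      constructor <;> linarith
    have h2 : |c x| / w x ≤ C := hC (mem_image_of_mem _ hxI)
    rw [div_le_iff₀ hwx] at h2
    exact h2.trans (mul_le_mul_of_nonneg_right (le_max_left _ _) hwx.le)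

theorem Ct.bump {r1 r2 : ℝ} (h1 : 0 < r1) (h2 : r1 < r2) (h3 : r2 < R) :
    ∃ χ : ℝ → ℝ, Ct x0 R χ ∧ (∀ x, 0 ≤ χ x) ∧ (∀ x, χ x ≤ 1) ∧ (∀ x, |x - x0| ≤ r1 → χ x = 1) ∧
      ∀ x, r2 ≤ |x - x0| → χ x = 0 := by
  let f : ContDiffBump x0 := ⟨r1, r2, h1, h2⟩
  refine ⟨f, ⟨f.contDiff, r2, h1.trans h2, h3, fun x hx => ?_⟩, fun x => f.nonneg, fun x => f.le_one,
    fun x hx => ?_, fun x hx => ?_⟩
  · apply f.zero_of_le_dist
    rw [Real.dist_eq]
    exact hx
  · apply f.one_of_mem_closedBall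
    rw [Metric.mem_closedBall, Real.dist_eq]
    exact hx
  · apply f.zero_of_le_dist
    rw [Real.dist_eq]
    exact hx

theorem Ct.deriv {a : ℝ → ℝ} (ha : Ct x0 R a) : Ct x0 R (deriv a) := by
  obtain ⟨r, hr, hrR, hs⟩ := ha.sup
  refine ⟨?_, (r + R) / 2, by linarith, by linarith, fun x hx => ?_⟩
  · exact (contDiff_infty_iff_deriv.1 ha.sm).2
  · have hx' : r < |x - x0| := by linarith
    have : a =ᶠ[𝓝 x] fun _ => 0 := by
      have ho : IsOpen {y : ℝ | r < |y - x0|} := isOpen_lt continuous_const (by fun_prop)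
      filter_upwards [ho.mem_nhds hx'] with y hy
      exact hs y (le_of_lt hy)
    rw [this.deriv_eq]
    simp

/-- domination by a cutoff function vanishing near `x0` -/
theorem dom_cut {d : ℝ → ℝ} {K r ρ0 : ℝ} (hK0 : 0 ≤ K) (hK : ∀ x, |d x| ≤ K) (hr : 0 < r) (hrR : r < R)
    (hs : ∀ x, r ≤ |x - x0| → d x = 0) (hρ : 0 < ρ0) (hz : ∀ x, |x - x0| ≤ ρ0 → d x = 0) :
    ∃ (c : ℝ → ℝ) (ρ1 : ℝ), Ct x0 R c ∧ (∀ x, 0 ≤ c x) ∧ (∀ x, |d x| ≤ c x) ∧ 0 < ρ1 ∧
      ∀ x, |x - x0| ≤ ρ1 → c x = 0 := by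
  set ρ := min ρ0 r with hρdef
  have hρpos : 0 < ρ := lt_min hρ hr
  obtain ⟨χ, hχ, hχ0, hχ1, hχ2, hχ3⟩ := Ct.bump (x0 := x0) (R := R) (r1 := r) (r2 := (r + R) / 2)
    hr (by linarith) (by linarith)
  obtain ⟨η, hη, hη0, hη1, hη2, hη3⟩ := Ct.bump (x0 := x0) (R := R) (r1 := ρ / 2) (r2 := ρ)
    (by positivity) (by linarith) (lt_of_le_of_lt (min_le_right _ _) hrR)
  refine ⟨fun x => K * (χ x - η x), ρ / 2, ⟨?_, R - min (R / 2) ((R - r) / 4), ?_, ?_, ?_⟩, ?_, ?_,
    by positivity, ?_⟩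
  · exact contDiff_const.mul (hχ.sm.sub hη.sm)
  · have : min (R / 2) ((R - r) / 4) ≤ R / 2 := min_le_left _ _
    linarith
  · have : 0 < min (R / 2) ((R - r) / 4) := lt_min (by linarith) (by linarith)
    linarith
  · intro x hx
    have h1 : min (R / 2) ((R - r) / 4) ≤ (R - r) / 4 := min_le_right _ _
    have h2 : (r + R) / 2 ≤ |x - x0| := by linarith
    have h3 : ρ ≤ |x - x0| := (min_le_right _ _).trans (by linarith)
    rw [hχ3 x h2, hη3 x h3, sub_zero, mul_zero]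
  · intro x
    show 0 ≤ K * (χ x - η x)
    by_cases h : |x - x0| ≤ r
    · rw [hχ2 x h]
      have := hη1 x
      exact mul_nonneg hK0 (by linarith)
    · push Not at h
      rw [hη3 x ((min_le_right _ _).trans h.le)]
      have := hχ0 x
      exact mul_nonneg hK0 (by linarith)
  · intro x
    show |d x| ≤ K * (χ x - η x)
    by_cases h : |x - x0| ≤ r
    · by_cases h' : ρ ≤ |x - x0|
      · rw [hχ2 x h, hη3 x h']
        simpa using hK x
      · push Not at h'
        rw [hz x (h'.le.trans (min_le_left _ _)), abs_zero]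
        rw [hχ2 x h]
        have := hη1 x
        exact mul_nonneg hK0 (by linarith)
    · push Not at h
      rw [hs x h.le, abs_zero]
      rw [hη3 x ((min_le_right _ _).trans h.le)]
      have := hχ0 x
      exact mul_nonneg hK0 (by linarith)
  · intro x hx
    show K * (χ x - η x) = 0
    have h1 : ρ ≤ r := min_le_right _ _
    rw [hχ2 x (by linarith), hη2 x hx, sub_self, mul_zero]

theorem cont_px {u : ℂ → ℝ} (hu : ContDiffOn ℝ ∞ u (Sx x0 R)) : ContinuousOn (px u) (Sx x0 R) := by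
  have := hu.continuousOn_fderiv_of_isOpen (Sx_open x0 R) (by simp)
  unfold px
  exact this.clm_apply continuousOn_const

theorem cont_py {u : ℂ → ℝ} (hu : ContDiffOn ℝ ∞ u (Sx x0 R)) : ContinuousOn (py u) (Sx x0 R) := by
  have := hu.continuousOn_fderiv_of_isOpen (Sx_open x0 R) (by simp)
  unfold py
  exact this.clm_apply continuousOn_const

theorem cont_re {c : ℝ → ℝ} (hc : ContinuousOn c (Ioo (x0 - R) (x0 + R))) :
    ContinuousOn (fun z : ℂ => c z.re) (Sx x0 R) :=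
  hc.comp Complex.continuous_re.continuousOn (fun _ hz => Qx_Ioo hz)

/-- the hypotheses -/
structure Hyp (x0 R : ℝ) (w : ℝ → ℝ) (l : Filter ℕ) (v : ℕ → ℂ → ℝ) (lam : ℕ → ℝ) : Prop where
  hR : 0 < R
  wsm : ContDiffOn ℝ ∞ w (Ioo (x0 - R) (x0 + R))
  hw : ∀ x ∈ Ioo (x0 - R) (x0 + R), 0 < w x
  sol : ∀ j, Sol x0 R w (lam j) (v j)
  lamT : Tendsto lam l atTop
  int : ∀ j, IntegrableOn (fun z => w z.re * (v j z) ^ 2) (Qx x0 R)
  mass : ∀ j, ∫ z in Qx x0 R, w z.re * (v j z) ^ 2 ≤ 1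
  conc : ∀ r : ℝ, 0 < r → r < R →
      Tendsto (fun j => ∫ z in Qx x0 R \ Qx x0 r, w z.re * (v j z) ^ 2) l (𝓝 0)

variable (H : Hyp x0 R w l v lam)

include H

theorem lam_inv : Tendsto (fun j => (lam j)⁻¹) l (𝓝 0) := tendsto_inv_atTop_zero.comp H.lamT

theorem small {f : ℂ → ℝ} {C : ℝ} (hC : 0 ≤ C) (hf : ∀ z ∈ Qx x0 R, |f z| ≤ C * w z.re) :
    Tendsto (fun j => (lam j)⁻¹ * ∫ z in Qx x0 R, f z * (v j z) ^ 2) l (𝓝 0) := by
  have h1 : ∀ j, |∫ z in Qx x0 R, f z * (v j z) ^ 2| ≤ C := by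
    intro j
    refine (le_of_dom (Qx_meas x0 R) ((H.int j).const_mul C) ?_).trans ?_
    · intro z hz
      rw [abs_mul, abs_of_nonneg (sq_nonneg (v j z)), ← mul_assoc]
      exact mul_le_mul_of_nonneg_right (hf z hz) (sq_nonneg _)
    · rw [integral_const_mul]
      have := H.mass j
      nlinarith
  have h2 : Tendsto (fun j => |(lam j)⁻¹| * C) l (𝓝 0) := by
    have := (lam_inv H).abs.mul_const C
    simpa using this
  refine squeeze_zero_norm (fun j => ?_) h2
  rw [Real.norm_eq_abs, abs_mul]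
  exact mul_le_mul_of_nonneg_left (h1 j) (abs_nonneg _)

theorem wcont : ContinuousOn w (Ioo (x0 - R) (x0 + R)) := H.wsm.continuousOn

theorem small_ct {c : ℝ → ℝ} (hc : Ct x0 R c) {β : ℝ → ℝ} {B : ℝ} (hB : ∀ y ∈ Ioc 0 (2 * π), |β y| ≤ B) :
    Tendsto (fun j => (lam j)⁻¹ * ∫ z in Qx x0 R, (c z.re * β z.im) * (v j z) ^ 2) l (𝓝 0) := by
  obtain ⟨r, hr, hrR, hs⟩ := hc.sup
  obtain ⟨C, hC0, hC⟩ := dom_w (wcont H) H.hw hc.sm.continuous.continuousOn hrR hs
  have hB0 : 0 ≤ B := (abs_nonneg _).trans (hB (2 * π) ⟨by positivity, le_rfl⟩)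
  apply small H (C := C * B) (by positivity)
  intro z hz
  rw [abs_mul]
  have h1 := hC z.re (Qx_Ioo (Qx_sub x0 R hz))
  have h2 := hB z.im hz.2
  calc |c z.re| * |β z.im| ≤ (C * w z.re) * B := by
        apply mul_le_mul h1 h2 (abs_nonneg _)
        exact (abs_nonneg _).trans h1
    _ = C * B * w z.re := by ring

/-- the first identity with `b = 1` -/
theorem id1 (h1 : StInt) (h2 : StId) {c : ℝ → ℝ} (hc : Ct x0 R c) (j : ℕ) :
    ∫ z in Qx x0 R, c z.re * ((px (v j) z) ^ 2 + (py (v j) z) ^ 2) =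
      lam j * (∫ z in Qx x0 R, c z.re * (w z.re * (v j z) ^ 2)) +
      1 / 2 * ∫ z in Qx x0 R, (deriv (deriv c) z.re * 1) * (v j z) ^ 2 := by
  have hp : Pf (fun _ => (1 : ℝ)) := ⟨contDiff_const, fun _ => rfl⟩
  have h := (h2 x0 R (lam j) w c (fun _ => 1) (v j) H.wsm (H.sol j) hc hp).1
  have hx := cont_px (H.sol j).sm
  have hy := cont_py (H.sol j).sm
  have hv := (H.sol j).sm.continuousOn
  have hwr := cont_re (wcont H)
  have i1 := h1 x0 R c (fun z => (px (v j) z) ^ 2 + (py (v j) z) ^ 2) hc ((hx.pow 2).add (hy.pow 2))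
  have i2 := h1 x0 R c (fun z => w z.re * (v j z) ^ 2) hc (hwr.mul (hv.pow 2))
  have e1 : ∫ z in Qx x0 R, c z.re * (fun _ => (1 : ℝ)) z.im *
      ((px (v j) z) ^ 2 + (py (v j) z) ^ 2 - lam j * w z.re * (v j z) ^ 2) =
      (∫ z in Qx x0 R, c z.re * ((px (v j) z) ^ 2 + (py (v j) z) ^ 2)) -
        lam j * ∫ z in Qx x0 R, c z.re * (w z.re * (v j z) ^ 2) := by
    rw [← integral_const_mul, ← integral_sub i1 (i2.const_mul _)]
    congr 1
    ext z
    ring
  have e2 : ∫ z in Qx x0 R, (deriv (deriv c) z.re * (fun _ => (1 : ℝ)) z.im +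
      c z.re * deriv (deriv fun _ => (1 : ℝ)) z.im) * (v j z) ^ 2 =
      ∫ z in Qx x0 R, (deriv (deriv c) z.re * 1) * (v j z) ^ 2 := by
    congr 1
    ext z
    simp
  rw [e1, e2] at h
  linarith

/-- the third identity -/
theorem id3 (h1 : StInt) (h2 : StId) {a : ℝ → ℝ} (ha : Ct x0 R a) (j : ℕ) :
    2 * ∫ z in Qx x0 R, deriv a z.re * (px (v j) z) ^ 2 =
      -(lam j * ∫ z in Qx x0 R, a z.re * deriv w z.re * (v j z) ^ 2) +
      1 / 2 * ∫ z in Qx x0 R, (deriv (deriv (deriv a)) z.re * 1) * (v j z) ^ 2 := by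
  have hp : Pf (fun _ => (1 : ℝ)) := ⟨contDiff_const, fun _ => rfl⟩
  have h := (h2 x0 R (lam j) w a (fun _ => 1) (v j) H.wsm (H.sol j) ha hp).2.2
  have hd := Ct.deriv ha
  have g := id1 H h1 h2 hd j
  have hx := cont_px (H.sol j).sm
  have hy := cont_py (H.sol j).sm
  have hv := (H.sol j).sm.continuousOn
  have hwr := cont_re (wcont H)
  have i1 := h1 x0 R _ (fun z => (px (v j) z) ^ 2) hd (hx.pow 2)
  have i2 := h1 x0 R _ (fun z => (py (v j) z) ^ 2) hd (hy.pow 2)
  have i3 := h1 x0 R _ (fun z => w z.re * (v j z) ^ 2) hd (hwr.mul (hv.pow 2))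
  have e1 : ∫ z in Qx x0 R, deriv a z.re *
      ((px (v j) z) ^ 2 - (py (v j) z) ^ 2 + lam j * w z.re * (v j z) ^ 2) =
      (∫ z in Qx x0 R, deriv a z.re * (px (v j) z) ^ 2) -
      (∫ z in Qx x0 R, deriv a z.re * (py (v j) z) ^ 2) +
        lam j * ∫ z in Qx x0 R, deriv a z.re * (w z.re * (v j z) ^ 2) := by
    have i12 : IntegrableOn (fun z => deriv a z.re * (px (v j) z) ^ 2 -
      deriv a z.re * (py (v j) z) ^ 2) (Qx x0 R) := i1.sub i2
    rw [← integral_const_mul, ← integral_sub i1 i2, ← integral_add i12 (i3.const_mul _)]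
    congr 1
    ext z
    ring
  have e2 : ∫ z in Qx x0 R, deriv a z.re * ((px (v j) z) ^ 2 + (py (v j) z) ^ 2) =
      (∫ z in Qx x0 R, deriv a z.re * (px (v j) z) ^ 2) +
      (∫ z in Qx x0 R, deriv a z.re * (py (v j) z) ^ 2) := by
    rw [← integral_add i1 i2]
    congr 1
    ext z
    ring
  rw [e1] at h
  rw [e2] at g
  linarith

/-- the energy away from the line is small -/
theorem energy_zero (h1 : StInt) (h2 : StId) {c : ℝ → ℝ} (hc : Ct x0 R c) (hnn : ∀ x, 0 ≤ c x)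
    {ρ0 : ℝ} (hρ : 0 < ρ0) (hz : ∀ x, |x - x0| ≤ ρ0 → c x = 0) :
    Tendsto (fun j => (lam j)⁻¹ *
      ∫ z in Qx x0 R, c z.re * ((px (v j) z) ^ 2 + (py (v j) z) ^ 2)) l (𝓝 0) := by
  obtain ⟨r, hr, hrR, hs⟩ := hc.sup
  obtain ⟨K, hK0, hK⟩ := bdd_of_sup hc.sm.continuous hs
  have t1 := tend_zero H.hw H.int H.mass H.conc
    (fun j z => c z.re * (w z.re * (v j z) ^ 2)) c K (fun x _ => (le_abs_self _).trans (hK x))
    (by
      intro ε hε
      refine ⟨min ρ0 (R / 2), lt_min hρ (by linarith [H.hR]),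
        lt_of_le_of_lt (min_le_right _ _) (by linarith [H.hR]), fun x hx => ?_⟩
      rw [hz x (hx.le.trans (min_le_left _ _))]
      exact hε.le)
    (by
      intro j z hz
      have := H.hw z.re (Qx_Ioo (Qx_sub x0 R hz))
      rw [abs_mul, abs_of_nonneg (hnn _), abs_of_nonneg (by positivity)])
  have t2 := (small_ct H (Ct.deriv (Ct.deriv hc)) (β := fun _ => 1) (B := 1) (by simp)).const_mul (1 / 2)
  have t3 := t1.add t2
  rw [mul_zero, add_zero] at t3
  refine t3.congr' ?_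
  filter_upwards [H.lamT.eventually_gt_atTop 0] with j hj
  rw [id1 H h1 h2 hc j]
  field_simp

/-- the energy in the direction of `x` is small -/
theorem px_zero (h1 : StInt) (h2 : StId) {χ : ℝ → ℝ} (hχ : Ct x0 R χ)
    {ρ0 : ℝ} (hρ : 0 < ρ0) (hz : ∀ x, |x - x0| ≤ ρ0 → χ x = 1) :
    Tendsto (fun j => (lam j)⁻¹ * ∫ z in Qx x0 R, χ z.re * (px (v j) z) ^ 2) l (𝓝 0) := by
  obtain ⟨r, hr, hrR, hs⟩ := hχ.sup
  -- the function `a`
  have ha : Ct x0 R (fun x => (x - x0) * χ x) :=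
    ⟨(contDiff_id.sub contDiff_const).mul hχ.sm, r, hr, hrR, fun x hx => by
      simp only [hs x hx, mul_zero]⟩
  have hda : ∀ x, deriv (fun x => (x - x0) * χ x) x = χ x + (x - x0) * deriv χ x := by
    intro x
    have d1 : HasDerivAt (fun x => x - x0) 1 x := (hasDerivAt_id x).sub_const x0
    have d2 : HasDerivAt χ (deriv χ x) x := (hχ.sm.differentiable (by simp) x).hasDerivAt
    have h3 := (d1.mul d2).deriv
    have e : (fun x => (x - x0) * χ x) = (fun x => x - x0) * χ := rfl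
    rw [e, h3]
    ring
  -- the first term
  have hdw : ContinuousOn (deriv w) (Ioo (x0 - R) (x0 + R)) :=
    H.wsm.continuousOn_deriv_of_isOpen isOpen_Ioo (by simp)
  obtain ⟨C, hC0, hC⟩ := dom_w (wcont H) H.hw (c := fun x => χ x * deriv w x)
    (hχ.sm.continuous.continuousOn.mul hdw) hrR (fun x hx => by simp only [hs x hx, zero_mul])
  have t1 := tend_zero H.hw H.int H.mass H.conc
    (fun j z => ((z.re - x0) * χ z.re) * deriv w z.re * (v j z) ^ 2) (fun x => C * |x - x0|) (C * R)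
    (fun x hx => by gcongr)
    (by
      intro ε hε
      refine ⟨min (ε / (C + 1)) (R / 2), lt_min (by positivity) (by linarith [H.hR]),
        lt_of_le_of_lt (min_le_right _ _) (by linarith [H.hR]), fun x hx => ?_⟩
      have h3 : |x - x0| ≤ ε / (C + 1) := hx.le.trans (min_le_left _ _)
      calc C * |x - x0| ≤ C * (ε / (C + 1)) := by gcongr
        _ ≤ (C + 1) * (ε / (C + 1)) := by gcongr; linarith
        _ = ε := by field_simp)
    (by
      intro j z hz
      have h3 := hC z.re (Qx_Ioo (Qx_sub x0 R hz))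
      have e : (z.re - x0) * χ z.re * deriv w z.re * (v j z) ^ 2 =
        (z.re - x0) * (χ z.re * deriv w z.re) * (v j z) ^ 2 := by ring
      rw [e, abs_mul, abs_mul, abs_of_nonneg (sq_nonneg (v j z))]
      calc |z.re - x0| * |χ z.re * deriv w z.re| * (v j z) ^ 2
          ≤ |z.re - x0| * (C * w z.re) * (v j z) ^ 2 := by gcongr
        _ = _ := by ring)
  have t2 := (small_ct H (Ct.deriv (Ct.deriv (Ct.deriv ha))) (β := fun _ => 1) (B := 1)
    (by simp)).const_mul (1 / 4)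
  have t3 := (t1.const_mul (-(1 / 2))).add t2
  rw [mul_zero, mul_zero, add_zero] at t3
  have t4 : Tendsto (fun j => (lam j)⁻¹ * ∫ z in Qx x0 R,
      deriv (fun x => (x - x0) * χ x) z.re * (px (v j) z) ^ 2) l (𝓝 0) := by
    refine t3.congr' ?_
    filter_upwards [H.lamT.eventually_gt_atTop 0] with j hj
    have h3 := id3 H h1 h2 ha j
    have h4 : ∫ z in Qx x0 R, deriv (fun x => (x - x0) * χ x) z.re * (px (v j) z) ^ 2 =
      -(1 / 2) * (lam j * ∫ z in Qx x0 R, (z.re - x0) * χ z.re * deriv w z.re * (v j z) ^ 2) +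
      1 / 4 * ∫ z in Qx x0 R, (deriv (deriv (deriv fun x => (x - x0) * χ x)) z.re * 1) * (v j z) ^ 2 := by
      linarith
    rw [h4]
    field_simp
  -- the correction
  have hdχ := Ct.deriv hχ
  obtain ⟨r', hr', hrR', hs'⟩ := hdχ.sup
  have hcont : Continuous fun x => (x - x0) * deriv χ x :=
    (continuous_id.sub continuous_const).mul hdχ.sm.continuous
  obtain ⟨K, hK0, hK⟩ := bdd_of_sup hcont (x0 := x0) (r := r') (fun x hx => by rw [hs' x hx, mul_zero])
  have hzero : ∀ x, |x - x0| ≤ ρ0 / 2 → (x - x0) * deriv χ x = 0 := by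
    intro x hx
    have hx' : |x - x0| < ρ0 := by linarith
    have : χ =ᶠ[𝓝 x] fun _ => 1 := by
      have ho : IsOpen {y : ℝ | |y - x0| < ρ0} := isOpen_lt (by fun_prop) continuous_const
      filter_upwards [ho.mem_nhds hx'] with y hy
      exact hz y (le_of_lt hy)
    rw [this.deriv_eq]
    simp
  obtain ⟨c, ρ1, hc, hc0, hcd, hρ1, hcz⟩ := dom_cut (x0 := x0) (R := R) hK0 hK hr' hrR'
    (fun x hx => by rw [hs' x hx, mul_zero]) (show 0 < ρ0 / 2 by positivity) hzero
  have t5 := energy_zero H h1 h2 hc hc0 hρ1 hcz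
  have t6 : Tendsto (fun j => (lam j)⁻¹ * ∫ z in Qx x0 R,
      ((z.re - x0) * deriv χ z.re) * (px (v j) z) ^ 2) l (𝓝 0) := by
    refine squeeze_zero_norm' ?_ t5
    filter_upwards [H.lamT.eventually_gt_atTop 0] with j hj
    rw [Real.norm_eq_abs, abs_mul, abs_of_pos (inv_pos.2 hj)]
    apply mul_le_mul_of_nonneg_left _ (inv_pos.2 hj).le
    apply le_of_dom (Qx_meas x0 R)
    · exact h1 x0 R c _ hc (((cont_px (H.sol j).sm).pow 2).add ((cont_py (H.sol j).sm).pow 2))
    · intro z hz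
      rw [abs_mul, abs_of_nonneg (sq_nonneg (px (v j) z))]
      have h3 := hcd z.re
      have h4 := sq_nonneg (px (v j) z)
      have h5 := sq_nonneg (py (v j) z)
      calc |(z.re - x0) * deriv χ z.re| * (px (v j) z) ^ 2 ≤ c z.re * (px (v j) z) ^ 2 := by gcongr
        _ ≤ c z.re * ((px (v j) z) ^ 2 + (py (v j) z) ^ 2) := by
          apply mul_le_mul_of_nonneg_left _ (hc0 _)
          linarith
  have t7 := t4.sub t6
  rw [sub_zero] at t7
  refine t7.congr (fun j => ?_)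
  rw [← mul_sub, ← integral_sub]
  · congr 2
    ext z
    rw [hda]
    ring
  · exact h1 x0 R _ _ (Ct.deriv ha) ((cont_px (H.sol j).sm).pow 2)
  · have hc2 : Ct x0 R (fun x => (x - x0) * deriv χ x) :=
      ⟨(contDiff_id.sub contDiff_const).mul hdχ.sm, r', hr', hrR', fun x hx => by
        simp only [hs' x hx, mul_zero]⟩
    exact h1 x0 R _ _ hc2 ((cont_px (H.sol j).sm).pow 2)

end

theorem stLim (h1 : StInt) (h2 : StId) : StLim := by
  intro x0 R w l v lam hR wsm hw sol lamT int mass conc a b ha ha1 hb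
  obtain ⟨r1, hr1, har1⟩ := ha1
  have H : Hyp x0 R w l v lam := ⟨hR, wsm, hw, sol, lamT, int, mass, conc⟩
  obtain ⟨r, hr, hrR, hs⟩ := ha.sup
  obtain ⟨K, hK0, hK⟩ := bdd_of_sup ha.sm.continuous hs
  have hbd : ∀ (β : ℝ → ℝ), Continuous β → ∃ B : ℝ, ∀ y ∈ Ioc 0 (2 * π), |β y| ≤ B := by
    intro β hβ
    obtain ⟨B, hB⟩ := (isCompact_Icc (a := (0 : ℝ)) (b := 2 * π)).exists_bound_of_continuousOn
      hβ.continuousOn
    exact ⟨B, fun y hy => hB y ⟨hy.1.le, hy.2⟩⟩
  have hb1 : ContDiff ℝ ∞ (deriv b) := (contDiff_infty_iff_deriv.1 hb.sm).2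
  have hb2 : ContDiff ℝ ∞ (deriv (deriv b)) := (contDiff_infty_iff_deriv.1 hb1).2
  have hb3 : ContDiff ℝ ∞ (deriv (deriv (deriv b))) := (contDiff_infty_iff_deriv.1 hb2).2
  have hpb1 : Pf (deriv b) := by
    refine ⟨hb1, fun y => ?_⟩
    have e : (fun y => b (y + 2 * π)) = b := funext hb.per
    have := deriv_comp_add_const b (2 * π) y
    rw [e] at this
    exact this.symm
  obtain ⟨B0, hB0⟩ := hbd b hb.sm.continuous
  obtain ⟨B1, hB1⟩ := hbd (deriv b) hb1.continuous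
  obtain ⟨B3, hB3⟩ := hbd (deriv (deriv (deriv b))) hb3.continuous
  have hB00 : 0 ≤ B0 := (abs_nonneg _).trans (hB0 (2 * π) ⟨by positivity, le_rfl⟩)
  have hB10 : 0 ≤ B1 := (abs_nonneg _).trans (hB1 (2 * π) ⟨by positivity, le_rfl⟩)
  -- the identity
  have hda := Ct.deriv ha
  have hdda := Ct.deriv hda
  have cb : ∀ (β : ℝ → ℝ), Continuous β → ContinuousOn (fun z : ℂ => β z.im) (Sx x0 R) :=
    fun β hβ => (hβ.comp Complex.continuous_im).continuousOn
  have hid : ∀ j, lam j * (∫ z in Qx x0 R, a z.re * deriv b z.im * (w z.re * (v j z) ^ 2)) =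
      (∫ z in Qx x0 R, (a z.re * deriv b z.im) * (px (v j) z) ^ 2) -
      1 / 4 * (∫ z in Qx x0 R, (deriv (deriv a) z.re * deriv b z.im) * (v j z) ^ 2) -
      1 / 4 * (∫ z in Qx x0 R, (a z.re * deriv (deriv (deriv b)) z.im) * (v j z) ^ 2) -
      ∫ z in Qx x0 R, deriv a z.re * b z.im * (px (v j) z * py (v j) z) := by
    intro j
    have e1 := (h2 x0 R (lam j) w a (deriv b) (v j) wsm (sol j) ha hpb1).1
    have e2 := (h2 x0 R (lam j) w a b (v j) wsm (sol j) ha hb).2.1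
    have hx := cont_px (sol j).sm
    have hy := cont_py (sol j).sm
    have hv := (sol j).sm.continuousOn
    have hwr := cont_re (wcont H)
    have i1 : IntegrableOn (fun z => (a z.re * deriv b z.im) * (px (v j) z) ^ 2) (Qx x0 R) := by
      have := h1 x0 R a (fun z => deriv b z.im * (px (v j) z) ^ 2) ha
        ((cb _ hb1.continuous).mul (hx.pow 2))
      refine this.congr_fun (fun z _ => ?_) (Qx_meas x0 R)
      ring
    have i2 : IntegrableOn (fun z => (a z.re * deriv b z.im) * (py (v j) z) ^ 2) (Qx x0 R) := by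
      have := h1 x0 R a (fun z => deriv b z.im * (py (v j) z) ^ 2) ha
        ((cb _ hb1.continuous).mul (hy.pow 2))
      refine this.congr_fun (fun z _ => ?_) (Qx_meas x0 R)
      ring
    have i3 : IntegrableOn (fun z => a z.re * deriv b z.im * (w z.re * (v j z) ^ 2)) (Qx x0 R) := by
      have := h1 x0 R a (fun z => deriv b z.im * (w z.re * (v j z) ^ 2)) ha
        ((cb _ hb1.continuous).mul (hwr.mul (hv.pow 2)))
      refine this.congr_fun (fun z _ => ?_) (Qx_meas x0 R)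
      ring
    have i4 : IntegrableOn (fun z => (deriv (deriv a) z.re * deriv b z.im) * (v j z) ^ 2) (Qx x0 R) := by
      have := h1 x0 R _ (fun z => deriv b z.im * (v j z) ^ 2) hdda
        ((cb _ hb1.continuous).mul (hv.pow 2))
      refine this.congr_fun (fun z _ => ?_) (Qx_meas x0 R)
      ring
    have i5 : IntegrableOn (fun z => (a z.re * deriv (deriv (deriv b)) z.im) * (v j z) ^ 2) (Qx x0 R) := by
      have := h1 x0 R a (fun z => deriv (deriv (deriv b)) z.im * (v j z) ^ 2) ha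
        ((cb _ hb3.continuous).mul (hv.pow 2))
      refine this.congr_fun (fun z _ => ?_) (Qx_meas x0 R)
      ring
    have i12 : IntegrableOn (fun z => (a z.re * deriv b z.im) * (px (v j) z) ^ 2 +
      (a z.re * deriv b z.im) * (py (v j) z) ^ 2) (Qx x0 R) := i1.add i2
    have i21 : IntegrableOn (fun z => (a z.re * deriv b z.im) * (py (v j) z) ^ 2 -
      (a z.re * deriv b z.im) * (px (v j) z) ^ 2) (Qx x0 R) := i2.sub i1
    have f1 : ∫ z in Qx x0 R, a z.re * deriv b z.im *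
        ((px (v j) z) ^ 2 + (py (v j) z) ^ 2 - lam j * w z.re * (v j z) ^ 2) =
        (∫ z in Qx x0 R, (a z.re * deriv b z.im) * (px (v j) z) ^ 2) +
        (∫ z in Qx x0 R, (a z.re * deriv b z.im) * (py (v j) z) ^ 2) -
        lam j * ∫ z in Qx x0 R, a z.re * deriv b z.im * (w z.re * (v j z) ^ 2) := by
      rw [← integral_const_mul, ← integral_add i1 i2, ← integral_sub i12 (i3.const_mul _)]
      congr 1
      ext z
      ring
    have f2 : ∫ z in Qx x0 R, a z.re * deriv b z.im *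
        ((py (v j) z) ^ 2 - (px (v j) z) ^ 2 + lam j * w z.re * (v j z) ^ 2) =
        (∫ z in Qx x0 R, (a z.re * deriv b z.im) * (py (v j) z) ^ 2) -
        (∫ z in Qx x0 R, (a z.re * deriv b z.im) * (px (v j) z) ^ 2) +
        lam j * ∫ z in Qx x0 R, a z.re * deriv b z.im * (w z.re * (v j z) ^ 2) := by
      rw [← integral_const_mul, ← integral_sub i2 i1, ← integral_add i21 (i3.const_mul _)]
      congr 1
      ext z
      ring
    have f3 : ∫ z in Qx x0 R, (deriv (deriv a) z.re * deriv b z.im +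
        a z.re * deriv (deriv (deriv b)) z.im) * (v j z) ^ 2 =
        (∫ z in Qx x0 R, (deriv (deriv a) z.re * deriv b z.im) * (v j z) ^ 2) +
        ∫ z in Qx x0 R, (a z.re * deriv (deriv (deriv b)) z.im) * (v j z) ^ 2 := by
      rw [← integral_add i4 i5]
      congr 1
      ext z
      ring
    rw [f1, f3] at e1
    rw [f2] at e2
    linarith
  -- the four terms
  obtain ⟨χ, hχ, hχ0, hχ1, hχ2, hχ3⟩ := Ct.bump (x0 := x0) (R := R) (r1 := r) (r2 := (r + R) / 2)
    hr (by linarith) (by linarith)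
  have p1 := px_zero H h1 h2 hχ hr hχ2
  have q1 : Tendsto (fun j => (lam j)⁻¹ * ∫ z in Qx x0 R,
      (a z.re * deriv b z.im) * (px (v j) z) ^ 2) l (𝓝 0) := by
    have p1' := p1.const_mul (K * B1)
    rw [mul_zero] at p1'
    refine squeeze_zero_norm' ?_ p1'
    filter_upwards [lamT.eventually_gt_atTop 0] with j hj
    rw [Real.norm_eq_abs, abs_mul, abs_of_pos (inv_pos.2 hj)]
    have hi : IntegrableOn (fun z => χ z.re * (px (v j) z) ^ 2) (Qx x0 R) :=
      h1 x0 R χ _ hχ ((cont_px (sol j).sm).pow 2)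
    have h3 := le_of_dom (f := fun z => (a z.re * deriv b z.im) * (px (v j) z) ^ 2) (Qx_meas x0 R)
      (hi.const_mul (K * B1)) (by
        intro z hz
        rw [abs_mul, abs_mul, abs_of_nonneg (sq_nonneg (px (v j) z))]
        have h4 : |a z.re| * |deriv b z.im| ≤ K * B1 * χ z.re := by
          by_cases hx : |z.re - x0| ≤ r
          · rw [hχ2 _ hx, mul_one]
            exact mul_le_mul (hK _) (hB1 _ hz.2) (abs_nonneg _) hK0
          · push Not at hx
            rw [hs _ hx.le, abs_zero, zero_mul]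
            have := hχ0 z.re
            positivity
        calc |a z.re| * |deriv b z.im| * (px (v j) z) ^ 2
            ≤ (K * B1 * χ z.re) * (px (v j) z) ^ 2 := by gcongr
          _ = _ := by ring)
    rw [integral_const_mul] at h3
    calc (lam j)⁻¹ * |∫ z in Qx x0 R, (a z.re * deriv b z.im) * (px (v j) z) ^ 2|
        ≤ (lam j)⁻¹ * (K * B1 * ∫ z in Qx x0 R, χ z.re * (px (v j) z) ^ 2) :=
          mul_le_mul_of_nonneg_left h3 (inv_pos.2 hj).le
      _ = _ := by ring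
  have q2 := (small_ct H hdda hB1).const_mul (1 / 4)
  have q3 := (small_ct H ha hB3).const_mul (1 / 4)
  have q4 : Tendsto (fun j => (lam j)⁻¹ * ∫ z in Qx x0 R,
      deriv a z.re * b z.im * (px (v j) z * py (v j) z)) l (𝓝 0) := by
    obtain ⟨r', hr', hrR', hs'⟩ := hda.sup
    obtain ⟨K', hK0', hK'⟩ := bdd_of_sup hda.sm.continuous hs'
    have hzero : ∀ x, |x - x0| ≤ r1 / 2 → deriv a x = 0 := by
      intro x hx
      have hx' : |x - x0| < r1 := by linarith
      have : a =ᶠ[𝓝 x] fun _ => 1 := by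
        have ho : IsOpen {y : ℝ | |y - x0| < r1} := isOpen_lt (by fun_prop) continuous_const
        filter_upwards [ho.mem_nhds hx'] with y hy
        exact har1 y (le_of_lt hy)
      rw [this.deriv_eq]
      simp
    obtain ⟨c, ρ1, hc, hc0, hcd, hρ1, hcz⟩ := dom_cut (x0 := x0) (R := R) hK0' hK' hr' hrR' hs'
      (show 0 < r1 / 2 by positivity) hzero
    have t5 := (energy_zero H h1 h2 hc hc0 hρ1 hcz).const_mul B0
    rw [mul_zero] at t5
    refine squeeze_zero_norm' ?_ t5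
    filter_upwards [lamT.eventually_gt_atTop 0] with j hj
    rw [Real.norm_eq_abs, abs_mul, abs_of_pos (inv_pos.2 hj)]
    have hi : IntegrableOn (fun z => c z.re * ((px (v j) z) ^ 2 + (py (v j) z) ^ 2)) (Qx x0 R) :=
      h1 x0 R c _ hc (((cont_px (sol j).sm).pow 2).add ((cont_py (sol j).sm).pow 2))
    have h3 := le_of_dom (f := fun z => deriv a z.re * b z.im * (px (v j) z * py (v j) z))
      (Qx_meas x0 R) (hi.const_mul B0) (by
        intro z hz
        rw [abs_mul, abs_mul]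
        have h4 : |deriv a z.re| * |b z.im| ≤ c z.re * B0 :=
          mul_le_mul (hcd _) (hB0 _ hz.2) (abs_nonneg _) (hc0 _)
        have h5 : |px (v j) z * py (v j) z| ≤ (px (v j) z) ^ 2 + (py (v j) z) ^ 2 := by
          rw [abs_mul]
          nlinarith [sq_nonneg (|px (v j) z| - |py (v j) z|), sq_abs (px (v j) z),
            sq_abs (py (v j) z), sq_nonneg (px (v j) z), sq_nonneg (py (v j) z)]
        calc |deriv a z.re| * |b z.im| * |px (v j) z * py (v j) z|
            ≤ (c z.re * B0) * ((px (v j) z) ^ 2 + (py (v j) z) ^ 2) :=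
              mul_le_mul h4 h5 (abs_nonneg _) (mul_nonneg (hc0 _) hB00)
          _ = B0 * (c z.re * ((px (v j) z) ^ 2 + (py (v j) z) ^ 2)) := by ring)
    rw [integral_const_mul] at h3
    calc (lam j)⁻¹ * |∫ z in Qx x0 R, deriv a z.re * b z.im * (px (v j) z * py (v j) z)|
        ≤ (lam j)⁻¹ * (B0 * ∫ z in Qx x0 R, c z.re * ((px (v j) z) ^ 2 + (py (v j) z) ^ 2)) :=
          mul_le_mul_of_nonneg_left h3 (inv_pos.2 hj).le
      _ = _ := by ring
  have q5 := ((q1.sub q2).sub q3).sub q4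
  simp only [mul_zero, sub_zero] at q5
  refine q5.congr' ?_
  filter_upwards [lamT.eventually_gt_atTop 0] with j hj
  have h3 := hid j
  have h4 : ∫ z in Qx x0 R, a z.re * deriv b z.im * (w z.re * (v j z) ^ 2) =
      (lam j)⁻¹ * (lam j * ∫ z in Qx x0 R, a z.re * deriv b z.im * (w z.re * (v j z) ^ 2)) := by
    rw [← mul_assoc, inv_mul_cancel₀ hj.ne', one_mul]
  rw [h4, h3]
  ring

end Pool.Agent.H240.AL.I3
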