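import Pool.Agent.H240.AL.Main
import Pool.Agent.H240.AL.StabW
import Pool.Agent.H240.AL.IntDiv
import Pool.Agent.H240.AL.Ident
import Pool.Agent.H240.AL.Lim
import Pool.Agent.H240.AL.Equi
import Pool.Agent.H240.CG.Val

/-!
# Scars on a closed geodesic: the final theorem
-/

set_option autoImplicit false
set_option linter.unusedSectionVars false

open Set Filter Topology MeasureTheory
open scoped ContDiff ComplexConjugate Real

noncomputable section

namespace Pool.Agent.H240.AL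

open Pool.Agent.Y262.EG Pool.Agent.Y262.EX Pool.Agent.Y262.EL Pool.Agent.Y262.QE
open Pool.Agent.Y264.QR Pool.Agent.H240.SC Pool.Agent.H240.SG Pool.Agent.H240.CG
open Pool.Agent.Y868.EX (stp_open om_open)

theorem tLim : StLim := I3.stLim I1.stInt (I2.stId I1.stInt I1.stDiv)

theorem tEqui : StEqui := I4.stEqui

/-- Scars on a closed geodesic: the weak limit, and all metrics near the metric. -/
def Concl8 : Prop :=
  ∃ (M P : Type) (_ : MetricSpace M) (_ : CompactSpace M) (_ : ConnectedSpace M)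
    (_ : MeasurableSpace M) (_ : BorelSpace M) (_ : MetricSpace P) (_ : CompactSpace P)
    (_ : MeasurableSpace P) (_ : BorelSpace P) (Ω : Set ℂ) (φ : ℂ → ℝ) (pr : ℂ → M) (q : Y → P)
    (μ : Measure M) (m : Measure P) (Fl : ℝ → Y → Y) (ψ : M → ℝ) (G : ℝ → ℝ) (x0 δ τ1 : ℝ),
    Gd Ω φ pr G x0 δ ∧ G x0 = 0 ∧ HasDerivAt G 0 x0 ∧
    IsUT Ω φ pr q ∧ IsArea Ω φ pr μ ∧ IsFiniteMeasure μ ∧ IsLiou Ω φ q m ∧ IsGeo Ω φ Fl ∧
    (∀ z : ℂ, z.re = x0 → ∀ t : ℝ, Fl t (z, π / 2) = (z + t * Complex.I, π / 2)) ∧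
    (∀ z ∈ Ω, curv φ z ≤ 0) ∧ (∀ z ∈ Ω, curv φ z = 0 ↔ pr z ∈ Gm pr x0) ∧
    Erg Ω q m Fl ∧ IsClosed (Gm pr x0) ∧ μ (Gm pr x0) = 0 ∧
    (∃ u lam, EB Ω φ pr μ u lam) ∧
    (∀ u lam, EB Ω φ pr μ u lam → Tendsto lam atTop atTop ∧
      (∀ j, Integrable (fun x => (u j x) ^ 2) μ) ∧
      ∃ J : Set ℕ, (∀ C : ℝ, ∃ᶠ Λ : ℝ in atTop, C * √Λ < ({j | j ∈ J ∧ lam j ≤ Λ}.ncard : ℝ)) ∧
        (∀ F : M → ℝ, Continuous F →
          Tendsto (fun j => ∫ x, F x * (u j x) ^ 2 ∂μ) (atTop ⊓ 𝓟 J) (𝓝 (Av pr x0 F))) ∧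
        ∀ ε : ℝ, 0 < ε → Tendsto (fun j => μ.real {x | ε ≤ |u j x|}) (atTop ⊓ 𝓟 J) (𝓝 0)) ∧
    ContDiffOn ℝ ∞ (fun z => ψ (pr z)) Ω ∧ 0 < τ1 ∧
    (∀ x, 0 ≤ ψ x) ∧ (∀ x, ψ x = 0 ↔ x ∈ Gm pr x0) ∧
    (∀ τ : ℝ, 0 < τ → τ < τ1 → (∀ z ∈ Ω, curv (fun z => φ z + τ * ψ (pr z)) z < 0) ∧
      ∃ Fl' : ℝ → Y → Y, IsGeo Ω (fun z => φ z + τ * ψ (pr z)) Fl' ∧
        ∀ z : ℂ, z.re = x0 → ∀ t : ℝ, Fl' t (z, π / 2) = (z + t * Complex.I, π / 2)) ∧
    (∀ f : M → ℝ, ContDiffOn ℝ ∞ (fun z => f (pr z)) Ω →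
      IsUT Ω (fun z => φ z + f (pr z)) pr q ∧ ∃ μ' : Measure M,
        IsArea Ω (fun z => φ z + f (pr z)) pr μ' ∧
        ∃ u lam, EB Ω (fun z => φ z + f (pr z)) pr μ' u lam) ∧
    (∀ (S : Finset C(M, ℝ)) (C ε Λ0 : ℝ), 0 < ε → ∃ (Λ1 η : ℝ),
      0 < η ∧ ∀ f : M → ℝ, ContDiffOn ℝ ∞ (fun z => f (pr z)) Ω → (∀ x, |f x| < η) →
      ∀ μ' : Measure M, IsArea Ω (fun z => φ z + f (pr z)) pr μ' →
      ∀ (u : ℕ → M → ℝ) (lam : ℕ → ℝ), EB Ω (fun z => φ z + f (pr z)) pr μ' u lam →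
      ∃ Λ : ℝ, Λ0 ≤ Λ ∧ Λ ≤ Λ1 ∧
        C * √Λ < ({j | (∀ F ∈ S, |(∫ x, F x * (u j x) ^ 2 ∂μ') - Av pr x0 F| ≤ ε) ∧
          lam j ≤ Λ}.ncard : ℝ)) ∧
    ∀ C ε Λ0 : ℝ, 0 < ε → ∃ (Λ1 η : ℝ),
      0 < η ∧ ∀ f : M → ℝ, ContDiffOn ℝ ∞ (fun z => f (pr z)) Ω → (∀ x, |f x| < η) →
      ∀ μ' : Measure M, IsArea Ω (fun z => φ z + f (pr z)) pr μ' →
      ∀ (u : ℕ → M → ℝ) (lam : ℕ → ℝ), EB Ω (fun z => φ z + f (pr z)) pr μ' u lam →
      ∃ Λ : ℝ, Λ0 ≤ Λ ∧ Λ ≤ Λ1 ∧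
        C * √Λ < ({j | μ'.real {x | ε ≤ |u j x|} ≤ ε ∧ lam j ≤ Λ}.ncard : ℝ)

theorem fin8 : Concl8 := by
  obtain ⟨g, c1, C0, hP⟩ := tProf
  obtain ⟨X, hX⟩ := cut_ex
  have h0 := L0p
  have hA : Act Gq Om ac := tAct
  obtain ⟨hI, hconj⟩ := tPhi2 g c1 C0 hP
  obtain ⟨M, iM, cM, pr, hpr⟩ := Pool.Agent.Y338.EX.qM Pool.Agent.Y749.EX.top Gq Om ac hA
  obtain ⟨P, iP, cP, q, hq⟩ := Pool.Agent.Y848.EX.qP Pool.Agent.Y749.EX.top Gq Om ac hA
    (fun γ z hz => (hI.2 γ z hz).1)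
  let _ : MeasurableSpace M := borel M
  have _ : BorelSpace M := ⟨rfl⟩
  let _ : MeasurableSpace P := borel P
  have _ : BorelSpace P := ⟨rfl⟩
  obtain ⟨μ0, D, Φ, σ, hB⟩ := base0_ex hP hX hpr hq
  have hneM : Nonempty M := ⟨Φ 0⟩
  have hconn : ConnectedSpace M := { toPreconnectedSpace := ⟨hpr.conn⟩, toNonempty := hneM }
  obtain ⟨G, c, C, r, hG2, hG0, hAd, hr0, hrL, hst⟩ := lim_ex hP hX hpr hq hB
  have hGW : ProfW G (c1 + c) := hG2.profW
  have hUT : IsUT Om (phi G (c1 + c)) pr q := ut_prof hpr hq hGW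
  obtain ⟨C', hC⟩ := clsE2 hG2 hpr hUT
  obtain ⟨κ, hκs, hfam⟩ := prof_fam hP hX hpr hq hB hAd
  obtain ⟨b1, b2, b3⟩ := hfam 0 contDiffOn_const
  have e0 : κ + (2 : ℝ) • (0 : C(M, ℝ)) = κ := by simp
  rw [e0] at b1 b2 b3
  have e1 : ∀ z ∈ Om, phi G (c1 + c) z = phi G (c1 + c) z + (0 : C(M, ℝ)) (pr z) := fun z _ => by
    show _ = _ + (0 : ℝ)
    ring
  have hν : IsArea Om (phi G (c1 + c)) pr (wm μ0 fun x => Real.exp (κ x)) := area_congr b3 e1
  have hCmp : Compat (D.conf fun x => Real.exp (κ x)) Om (phi G (c1 + c)) pr := cmp_congr b2 e1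
  have hνf : IsFiniteMeasure (wm μ0 fun x => Real.exp (κ x)) := (tFin M _ _ b1).1
  have hall : ∀ u lam, EB Om (phi G (c1 + c)) pr (wm μ0 fun x => Real.exp (κ x)) u lam →
      Tendsto lam atTop atTop ∧
        (∀ j, Integrable (fun x => (u j x) ^ 2) (wm μ0 fun x => Real.exp (κ x))) ∧
        ∀ j, ∫ x, (u j x) ^ 2 ∂(wm μ0 fun x => Real.exp (κ x)) = 1 := by
    intro u lam hu
    have hw := eb_weak hUT b1 hCmp hν hu
    refine ⟨Pool.Agent.H240.NL.eb_tt hB.surf hneM hw, fun j => (hw.eig j).mem.integrable_sq,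
      fun j => ?_⟩
    have h8 := hw.orth j j
    rw [if_pos rfl] at h8
    rw [← h8]
    refine integral_congr_ae (Filter.Eventually.of_forall fun x => ?_)
    simp only
    ring
  have hloc : ∀ u lam, EB Om (phi G (c1 + c)) pr (wm μ0 fun x => Real.exp (κ x)) u lam →
      Loc (wm μ0 fun x => Real.exp (κ x)) (Gm pr (L0 / 2)) u lam := by
    intro u lam hu
    obtain ⟨h1, h2, h3⟩ := hall u lam hu
    exact loc_ex hX hpr h1 h2 h3 hr0 hrL fun n => hst n _ hν u lam hu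
  have hIn : Inva Om (phi G (c1 + c)) ac := (phi2W hGW).1
  obtain ⟨Fl, hFl⟩ := tGeo Gq Om ac _ hA hIn
  obtain ⟨m, hm⟩ := tLiouEx M P Om _ pr q hUT
  have hS : ∀ z : ℂ, |z.re - L0 / 2| < L0 → z ∈ Stp L0 (3 / 2 * L0) := by
    intro z hz
    have h1 := abs_lt.1 hz
    exact ⟨by linarith [h1.1], by linarith [h1.2]⟩
  have hline : ∀ z : ℂ, z.re = L0 / 2 → z ∈ Stp L0 (3 / 2 * L0) := by
    intro z hz
    exact hS z (by rw [hz, sub_self, abs_zero]; exact h0)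
  have hper : ∀ z ∈ Stp L0 (3 / 2 * L0), ∀ w ∈ Stp L0 (3 / 2 * L0),
      (pr z = pr w ↔ ∃ n : ℤ, w = z + n * (2 * π * Complex.I)) := by
    intro z hz w hw
    refine ⟨hC.inj z hz w hw, ?_⟩
    rintro ⟨n, hn⟩
    have hper : ∀ k : ℤ, pr (z + k * (2 * π * Complex.I)) = pr z := by
      have hre : ∀ k : ℤ, (z + k * (2 * π * Complex.I)) ∈ Stp L0 (3 / 2 * L0) := by
        intro k
        have : (z + k * (2 * π * Complex.I)).re = z.re := by simp
        constructor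
        · rw [this]; exact hz.1
        · rw [this]; exact hz.2
      intro k
      induction k using Int.induction_on with
      | zero => simp
      | succ k ih =>
        have h1 := hC.per _ (hre k)
        rw [ih] at h1
        rw [← h1]
        congr 1
        push_cast
        ring
      | pred k ih =>
        have h1 := hC.per _ (hre (-k - 1))
        rw [← h1, ← ih]
        congr 1
        push_cast
        ring
    rw [hn, hper n]
  have hrot : ∀ z ∈ Stp L0 (3 / 2 * L0), phi G (c1 + c) z = G z.re := fun z hz => hC.rot z hz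
  have hpx : ∀ z : ℂ, z.re = L0 / 2 → phi G (c1 + c) z = 0 ∧ px (phi G (c1 + c)) z = 0 := by
    intro z hz
    refine ⟨by rw [hrot z (hline z hz), hz, hG2.g0], ?_⟩
    have h1 : phi G (c1 + c) =ᶠ[𝓝 z] fun w => G w.re := by
      filter_upwards [(stp_open _ _).mem_nhds (hline z hz)] with w hw using hrot w hw
    have h2 : HasFDerivAt (fun w : ℂ => G w.re)
        ((ContinuousLinearMap.toSpanSingleton ℝ (0 : ℝ)).comp Complex.reCLM) z := by
      have h3 : HasDerivAt G 0 (Complex.reCLM z) := by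
        show HasDerivAt G 0 z.re
        rw [hz]
        exact hG2.g1
      exact h3.hasFDerivAt.comp z Complex.reCLM.hasFDerivAt
    unfold px
    rw [h1.fderiv_eq, h2.fderiv]
    simp
  -- the function which vanishes on the closed geodesic
  have a3 := hfW (adW_et (G := sqF) sqF_cd.contDiffOn hX 1)
  obtain ⟨H, hH⟩ := desc hpr (F := Hf (et sqF X 1) 1) a3.sm.continuousOn a3.inv
  have hHs : ContDiffOn ℝ ∞ (fun z => H (pr z)) Om := a3.sm.congr fun z hz => hH z hz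
  have hHz' := h_zero_gen hX hpr (F := sqF) (r := 0) (by positivity) sqF_cd.contDiffOn
    (fun x hx => by
      have h1 := abs_nonpos_iff.1 hx
      simp only [sqF, h1]
      norm_num)
    (fun x _ hx => by
      have h1 := abs_pos.1 hx
      unfold sqF
      positivity) hH
  have hT : ∀ x, x ∈ Tc pr 0 ↔ x ∈ Gm pr (L0 / 2) := by
    intro x
    have h1 : {z : ℂ | |z.re - L0 / 2| ≤ 0} = {z : ℂ | z.re = L0 / 2} := by
      ext z
      simp only [mem_setOf_eq, abs_nonpos_iff]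
      exact sub_eq_zero
    unfold Tc Gm
    rw [h1]
  have hHn : ∀ x, 0 ≤ H x := fun x => (hHz' x).1
  have hHz : ∀ x, H x = 0 ↔ x ∈ Gm pr (L0 / 2) := fun x => (hHz' x).2.trans (hT x)
  have hGd : Gd Om (phi G (c1 + c)) pr G (L0 / 2) L0 :=
    ⟨h0, fun z hz => ⟨strip_om (hS z hz), hrot z (hS z hz)⟩,
      fun z w hz hw => hper z (hS z hz) w (hS w hw)⟩
  have hnull : (wm μ0 fun x => Real.exp (κ x)) (Gm pr (L0 / 2)) = 0 :=
    gm_null hν (fun z hz => strip_om (hline z hz)) fun z w hz hw =>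
      hper z (hline z hz) w (hline w hw)
  -- weak bases
  have hgoodW : ∀ (u : ℕ → M → ℝ) (lam : ℕ → ℝ),
      EigBasis (D.conf fun x => Real.exp (κ x)) (wm μ0 fun x => Real.exp (κ x)) u lam →
      ∃ J : Set ℕ, (∀ C : ℝ, ∃ᶠ Λ : ℝ in atTop,
        C * Real.sqrt Λ < ({j | j ∈ J ∧ lam j ≤ Λ}.ncard : ℝ)) ∧
        ∀ F : C(M, ℝ), Tendsto (fun j => ∫ x, F x * (u j x) ^ 2 ∂(wm μ0 fun x => Real.exp (κ x)))
          (atTop ⊓ 𝓟 J) (𝓝 (Av pr (L0 / 2) F)) := by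
    intro u lam hu
    obtain ⟨v, hv, huv⟩ := eb_ex2 hUT b1 hCmp hν hu
    obtain ⟨h1, h2, h3⟩ := hall v lam hv
    obtain ⟨J, hJ1, hJ2⟩ := hloc v lam hv
    refine ⟨J, hJ1, fun F => ?_⟩
    have h4 := weak_lim tLim tEqui hGd hUT hν hv.eig h2 h3 (h1.mono_left inf_le_left) hJ2
      F.continuous
    refine h4.congr fun j => integral_congr_ae ?_
    filter_upwards [huv j] with x hx
    rw [hx]
  have hgood : ∀ (u : ℕ → M → ℝ) (lam : ℕ → ℝ),
      EigBasis (D.conf fun x => Real.exp (κ x)) (wm μ0 fun x => Real.exp (κ x)) u lam →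
      ∃ J : Set ℕ, (∀ C : ℝ, ∃ᶠ Λ : ℝ in atTop,
        C * Real.sqrt Λ < ({j | j ∈ J ∧ lam j ≤ Λ}.ncard : ℝ)) ∧
        Tendsto (fun j => ∫ x, H x * (u j x) ^ 2 ∂(wm μ0 fun x => Real.exp (κ x)))
          (atTop ⊓ 𝓟 J) (𝓝 0) := by
    intro u lam hu
    obtain ⟨v, hv, huv⟩ := eb_ex2 hUT b1 hCmp hν hu
    obtain ⟨h1, h2, h3⟩ := hall v lam hv
    obtain ⟨J, hJ1, hJ2⟩ := hloc v lam hv
    refine ⟨J, hJ1, ?_⟩
    have h4 := loc_int H hHn (fun x hx => (hHz x).2 hx) h2 h3 hJ2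
    refine h4.congr fun j => integral_congr_ae ?_
    filter_upwards [huv j] with x hx
    rw [hx]
  obtain ⟨τ1, hτ1, hneg⟩ := neg_prof hX hG2
  refine ⟨M, P, iM, cM, hconn, inferInstance, inferInstance, iP, cP, inferInstance, inferInstance,
    Om, phi G (c1 + c), pr, q, _, m, Fl, H, G, L0 / 2, L0, τ1, hGd, hG2.g0, hG2.g1, hUT, hν,
    hνf, hm, hFl, ?_, hC.neg, ?_, ?_, (gm_far hX hpr).1, hnull, ?_, fun u lam hu => ?_, hHs, hτ1,
    hHn, hHz, ?_, ?_, ?_, ?_⟩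
  · exact geo_line om_open hIn.1 hFl (fun z hz => strip_om (hline z hz)) hpx
  · intro z hz
    constructor
    · intro hz0
      obtain ⟨w, hw1, hw2⟩ := hC.zero z hz hz0
      exact ⟨w, hw1, hw2⟩
    · rintro ⟨w, hw1, hw2⟩
      have hw1' : w.re = L0 / 2 := hw1
      obtain ⟨γ, hγ⟩ := (hpr.rel z hz w (strip_om (hline w hw1'))).1 hw2.symm
      rw [← curv_ac hIn γ hz, hγ, (phi3W hGW).1 w (hline w hw1'), hw1', hG0]
      simp
  · exact erg2 M P Om _ pr q m Fl _ _ _ _ _ _ _ hUT hm hFl hC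
  · obtain ⟨u, lam, hu⟩ := tEx M μ0 D hB.surf hneM κ
    obtain ⟨v, hv⟩ := eb_ex hUT b1 hCmp hν hu
    exact ⟨v, lam, hv⟩
  · obtain ⟨h1, h2, h3⟩ := hall u lam hu
    obtain ⟨J, hJ1, hJ2⟩ := hloc u lam hu
    exact ⟨h1, h2, J, hJ1, fun F hF => weak_lim tLim tEqui hGd hUT hν hu.eig h2 h3
      (h1.mono_left inf_le_left) hJ2 hF, fun ε hε => collapse hnull h2 hJ2 hε⟩
  · intro τ hτ hτ2
    have hIτ : Inva Om (fun z => phi G (c1 + c) z + τ * H (pr z)) ac := by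
      refine ⟨hIn.1.add (contDiffOn_const.mul hHs), fun γ z hz => ?_⟩
      obtain ⟨k1, k2⟩ := hIn.2 γ z hz
      refine ⟨k1, ?_⟩
      have k3 : pr (ac γ z) = pr z := ((hpr.rel z hz _ (tAct.maps γ z hz)).2 ⟨γ, rfl⟩).symm
      show phi G (c1 + c) (ac γ z) + τ * H (pr (ac γ z)) + Real.log ‖deriv (ac γ) z‖ =
        phi G (c1 + c) z + τ * H (pr z)
      rw [k3]
      linarith
    obtain ⟨Fl', hFl'⟩ := tGeo Gq Om ac _ hA hIτ
    refine ⟨fun z hz => ?_, Fl', hFl', ?_⟩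
    · have h1 := hneg τ hτ hτ2 z hz
      have h2 : (fun z => phi G (c1 + c) z + τ * H (pr z)) =ᶠ[𝓝 z]
          fun z => phi G (c1 + c) z + τ * Hf (et sqF X 1) 1 z := by
        filter_upwards [om_open.mem_nhds hz] with w hw
        rw [hH w hw]
      rw [curv_congr h2]
      exact h1
    · refine geo_line om_open hIτ.1 hFl' (fun z hz => strip_om (hline z hz)) fun z hz => ?_
      have h1 : (fun z => phi G (c1 + c) z + τ * H (pr z)) =ᶠ[𝓝 z]
          fun w => (fun x => G x + τ * sqF x) w.re := by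
        have hO : IsOpen {w : ℂ | |w.re - L0 / 2| < 4 / 5 * L0} :=
          isOpen_lt (by fun_prop) continuous_const
        have hzO : z ∈ {w : ℂ | |w.re - L0 / 2| < 4 / 5 * L0} := by
          show |z.re - L0 / 2| < 4 / 5 * L0
          rw [hz, sub_self, abs_zero]
          positivity
        filter_upwards [hO.mem_nhds hzO] with w hw
        have hwS := stp_near (le_of_lt hw)
        show phi G (c1 + c) w + τ * H (pr w) = G w.re + τ * sqF w.re
        rw [hrot w hwS, hH w (strip_om hwS), a3.strip _ hwS, et_near hX (le_of_lt hw)]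
      have h4 : HasDerivAt sqF 0 (L0 / 2) := by
        have h5 : HasDerivAt (fun x : ℝ => (x - L0 / 2) ^ 2)
            (((2 : ℕ) : ℝ) * (L0 / 2 - L0 / 2) ^ (2 - 1) * 1) (L0 / 2) :=
          ((hasDerivAt_id (L0 / 2)).sub_const (L0 / 2)).pow 2
        have h6 : ((2 : ℕ) : ℝ) * (L0 / 2 - L0 / 2) ^ (2 - 1) * 1 = 0 := by norm_num
        rw [h6] at h5
        exact h5
      have h7 : HasDerivAt (fun x => G x + τ * sqF x) 0 (L0 / 2) := by
        have h8 := hG2.g1.add (h4.const_mul τ)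
        rw [mul_zero, add_zero] at h8
        exact h8
      refine ⟨?_, ?_⟩
      · rw [h1.eq_of_nhds]
        show G z.re + τ * sqF z.re = 0
        rw [hz, hG2.g0]
        simp [sqF]
      · have h2 : HasFDerivAt (fun w : ℂ => (fun x => G x + τ * sqF x) w.re)
            ((ContinuousLinearMap.toSpanSingleton ℝ (0 : ℝ)).comp Complex.reCLM) z := by
          have h3 : HasDerivAt (fun x => G x + τ * sqF x) 0 (Complex.reCLM z) := by
            show HasDerivAt (fun x => G x + τ * sqF x) 0 z.re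
            rw [hz]
            exact h7
          exact h3.hasFDerivAt.comp z Complex.reCLM.hasFDerivAt
        unfold px
        rw [h1.fderiv_eq, h2.fderiv]
        simp
  · intro f hf
    have hUTf := ut_add hpr hq hGW hf
    set fC : C(M, ℝ) := ⟨f, Pool.Agent.H240.NL.cont_of hUT hf.continuousOn⟩ with hfC
    obtain ⟨d1, d2, d3⟩ := hfam fC hf
    obtain ⟨u, lam, hu⟩ := tEx M μ0 D hB.surf hneM (κ + (2 : ℝ) • fC)
    obtain ⟨v, hv⟩ := eb_ex hUTf d1 d2 d3 hu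
    exact ⟨hUTf, _, d3, v, lam, hv⟩
  · intro S C ε Λ0 hε
    obtain ⟨Λ1, η, hη, hstb⟩ := stabW μ0 D hB.surf hneM κ S (fun F => Av pr (L0 / 2) F)
      (fun u lam hu => by
        obtain ⟨J, hJ1, hJ2⟩ := hgoodW u lam hu
        exact ⟨J, hJ1, fun F _ => hJ2 F⟩) C ε Λ0 hε
    refine ⟨Λ1, η / 2, by positivity, fun f hf hfη ν' hν' u lam hu => ?_⟩
    have hUTf := ut_add hpr hq hGW hf
    set fC : C(M, ℝ) := ⟨f, Pool.Agent.H240.NL.cont_of hUT hf.continuousOn⟩ with hfC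
    obtain ⟨d1, d2, d3⟩ := hfam fC hf
    have hνeq : ν' = wm μ0 fun x => Real.exp ((κ + (2 : ℝ) • fC) x) :=
      Pool.Agent.H240.NL.area_unique hUTf hν' d3
    subst hνeq
    have hw := eb_weak hUTf d1 d2 d3 hu
    have hfn : ‖(2 : ℝ) • fC‖ < η := by
      rw [ContinuousMap.norm_lt_iff _ hη]
      intro x
      have h1 : ((2 : ℝ) • fC) x = 2 * f x := rfl
      rw [h1, Real.norm_eq_abs, abs_mul, abs_two]
      linarith [hfη x]
    exact hstb ((2 : ℝ) • fC) hfn u lam hw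
  · intro C ε Λ0 hε
    -- a neighbourhood of the closed geodesic of small area
    obtain ⟨U, hZU, hUo, hUm⟩ := (Gm pr (L0 / 2)).exists_isOpen_lt_of_lt
      (μ := wm μ0 fun x => Real.exp (κ x)) (ENNReal.ofReal (ε / 8)) (by
        rw [hnull]
        exact ENNReal.ofReal_pos.2 (by linarith))
    have hK : IsCompact Uᶜ := hUo.isClosed_compl.isCompact
    obtain ⟨c', hc', hcK⟩ : ∃ c : ℝ, 0 < c ∧ ∀ x ∈ Uᶜ, c ≤ H x := by
      rcases (Uᶜ).eq_empty_or_nonempty with hem | hne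
      · exact ⟨1, one_pos, fun x hx => by rw [hem] at hx; exact absurd hx (notMem_empty x)⟩
      · obtain ⟨x1, hx1, hmin⟩ := hK.exists_isMinOn hne H.continuous.continuousOn
        refine ⟨H x1, lt_of_le_of_ne (hHn x1) fun hcon => ?_, fun x hx => hmin hx⟩
        exact hx1 (hZU ((hHz x1).1 hcon.symm))
    set ε1 : ℝ := ε ^ 3 / 2 with hε1
    have hε1p : 0 < ε1 := by positivity
    obtain ⟨Λ1, η, hη, hstb⟩ := Pool.Agent.H240.NL.stabL μ0 D hB.surf hneM κ H hgood C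
      (c' * ε1) Λ0 (by positivity)
    refine ⟨Λ1, min (1 / 4) (η / 2), lt_min (by norm_num) (by positivity),
      fun f hf hfη ν' hν' u lam hu => ?_⟩
    have hUTf := ut_add hpr hq hGW hf
    set fC : C(M, ℝ) := ⟨f, Pool.Agent.H240.NL.cont_of hUT hf.continuousOn⟩ with hfC
    obtain ⟨d1, d2, d3⟩ := hfam fC hf
    have hνeq : ν' = wm μ0 fun x => Real.exp ((κ + (2 : ℝ) • fC) x) :=
      Pool.Agent.H240.NL.area_unique hUTf hν' d3
    subst hνeq
    have hw := eb_weak hUTf d1 d2 d3 hu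
    have hfn : ‖(2 : ℝ) • fC‖ < η := by
      rw [ContinuousMap.norm_lt_iff _ hη]
      intro x
      have h1 : ((2 : ℝ) • fC) x = 2 * f x := rfl
      rw [h1, Real.norm_eq_abs, abs_mul, abs_two]
      linarith [(hfη x).trans_le (min_le_right (1 / 4 : ℝ) (η / 2))]
    obtain ⟨Λ, hΛ0, hΛ1, hΛ⟩ := hstb ((2 : ℝ) • fC) hfn u lam hw
    refine ⟨Λ, hΛ0, hΛ1, hΛ.trans_le (Nat.cast_le.2 (ncard_le_ncard ?_ ?_))⟩
    · rintro j ⟨h1, h2⟩
      refine ⟨?_, h2⟩
      have hfin : IsFiniteMeasure (wm μ0 fun x => Real.exp ((κ + (2 : ℝ) • fC) x)) :=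
        (tFin M _ _ d1).1
      have hUν : (wm μ0 fun x => Real.exp ((κ + (2 : ℝ) • fC) x)).real U ≤ ε / 2 := by
        have h3 := wm_le μ0 κ fC hUo.measurableSet (B := 1 / 4) fun x =>
          (le_abs_self _).trans ((hfη x).le.trans (min_le_left _ _))
        have h4 : Real.exp (2 * (1 / 4)) ≤ 4 := by
          have h5 := Real.exp_one_lt_d9
          have h6 : Real.exp (2 * (1 / 4)) ≤ Real.exp 1 := Real.exp_le_exp.2 (by norm_num)
          linarith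
        have h5 : (wm μ0 fun x => Real.exp ((κ + (2 : ℝ) • fC) x)) U ≤ ENNReal.ofReal (ε / 2) := by
          refine h3.trans ((mul_le_mul' (ENNReal.ofReal_le_ofReal h4) hUm.le).trans ?_)
          rw [← ENNReal.ofReal_mul (by norm_num)]
          refine ENNReal.ofReal_le_ofReal (by linarith)
        rw [Measure.real]
        exact ENNReal.toReal_le_of_le_ofReal (by linarith) h5
      set ν := wm μ0 fun x => Real.exp ((κ + (2 : ℝ) • fC) x) with hνd
      have hu2 : Integrable (fun x => (u j x) ^ 2) ν := (hw.eig j).mem.integrable_sq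
      have hIn : Integrable (fun x => H x * (u j x) ^ 2) ν := by
        obtain ⟨B, hB⟩ := isCompact_univ.exists_bound_of_continuousOn H.continuous.continuousOn
        exact hu2.bdd_mul H.continuous.aestronglyMeasurable
          (Filter.Eventually.of_forall fun x => hB x (mem_univ x))
      have h3 : ∫ x in Uᶜ, c' * (u j x) ^ 2 ∂ν ≤ ∫ x in Uᶜ, H x * (u j x) ^ 2 ∂ν := by
        refine setIntegral_mono_on (hu2.const_mul _).integrableOn hIn.integrableOn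
          hK.measurableSet fun x hx => ?_
        exact mul_le_mul_of_nonneg_right (hcK x hx) (sq_nonneg _)
      rw [integral_const_mul] at h3
      have h4 : ∫ x in Uᶜ, H x * (u j x) ^ 2 ∂ν ≤ ∫ x, H x * (u j x) ^ 2 ∂ν :=
        setIntegral_le_integral hIn
          (Filter.Eventually.of_forall fun x => mul_nonneg (hHn x) (sq_nonneg _))
      have h5 : c' * ∫ x in Uᶜ, (u j x) ^ 2 ∂ν ≤ c' * ε1 := (h3.trans h4).trans h1
      have h6 := le_of_mul_le_mul_left h5 hc'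
      have h7 := markov hu2 hUo hε
      have h8 : (ε ^ 2)⁻¹ * ∫ x in Uᶜ, (u j x) ^ 2 ∂ν ≤ (ε ^ 2)⁻¹ * ε1 :=
        mul_le_mul_of_nonneg_left h6 (by positivity)
      have h9 : (ε ^ 2)⁻¹ * ε1 = ε / 2 := by
        rw [hε1]
        field_simp
      linarith
    · obtain ⟨j0, hj0⟩ := ((Pool.Agent.H240.NL.eb_tt hB.surf hneM hw).eventually
        (eventually_gt_atTop Λ)).exists_forall_of_atTop
      refine (Set.finite_Iio j0).subset fun j hj => ?_
      by_contra hcon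
      have h1 := hj0 j (not_lt.1 hcon)
      have h2 : lam j ≤ Λ := hj.2
      linarith

end Pool.Agent.H240.AL
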