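import Pool.Agent.H240.AL.Def
import Pool.Agent.H240.CG.Neg

/-!
# Scars on a closed geodesic: the weak limit is the uniform measure on the closed geodesic
-/

set_option autoImplicit false
set_option linter.unusedSectionVars false

open Set Filter Topology MeasureTheory
open scoped ContDiff ComplexConjugate Real

noncomputable section

namespace Pool.Agent.H240.AL

open Pool.Agent.Y262.EG Pool.Agent.Y262.EX Pool.Agent.Y262.EL Pool.Agent.Y262.QE
open Pool.Agent.Y264.QR Pool.Agent.H240.SC Pool.Agent.H240.SG Pool.Agent.H240.CG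

/-- the mean value on the closed geodesic -/
def Av {M : Type} (pr : ℂ → M) (x0 : ℝ) (F : M → ℝ) : ℝ :=
  (2 * π)⁻¹ * ∫ y in (0 : ℝ)..(2 * π), F (pr (x0 + y * Complex.I))

/-- the data of the closed geodesic -/
structure Gd {M : Type} [TopologicalSpace M] (Ω : Set ℂ) (φ : ℂ → ℝ) (pr : ℂ → M) (G : ℝ → ℝ)
    (x0 δ : ℝ) : Prop where
  δp : 0 < δ
  rot : ∀ z : ℂ, |z.re - x0| < δ → z ∈ Ω ∧ φ z = G z.re
  per : ∀ z w : ℂ, |z.re - x0| < δ → |w.re - x0| < δ →
    (pr z = pr w ↔ ∃ n : ℤ, w = z + n * (2 * π * Complex.I))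

section

variable {M P : Type} [MetricSpace M] [CompactSpace M] [MetricSpace P] [CompactSpace P]
  [MeasurableSpace M] [BorelSpace M] {Ω : Set ℂ} {φ : ℂ → ℝ} {pr : ℂ → M} {q : Y → P}
  {μ : Measure M} {G : ℝ → ℝ} {x0 δ : ℝ}

theorem Gd.sub (h : Gd Ω φ pr G x0 δ) : Sx x0 δ ⊆ Ω := fun z hz => (h.rot z hz).1

theorem Gd.p1 (h : Gd Ω φ pr G x0 δ) {z : ℂ} (hz : z ∈ Sx x0 δ) :
    pr (z + 2 * π * Complex.I) = pr z := by
  have hz' : |z.re - x0| < δ := hz
  have h1 : |(z + 2 * π * Complex.I).re - x0| < δ := by simpa using hz'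
  exact ((h.per z _ hz h1).2 ⟨1, by push_cast; ring⟩).symm

theorem Gd.wsm (h : Gd Ω φ pr G x0 δ) (hφ : ContDiffOn ℝ ∞ φ Ω) :
    ContDiffOn ℝ ∞ (fun x => Real.exp (2 * G x)) (Ioo (x0 - δ) (x0 + δ)) := by
  have h1 : ContDiffOn ℝ ∞ (fun x : ℝ => φ (x : ℂ)) (Ioo (x0 - δ) (x0 + δ)) := by
    refine hφ.comp (Complex.ofRealCLM.contDiff.contDiffOn) fun x hx => ?_
    refine (h.rot _ ?_).1
    show |((x : ℝ) : ℂ).re - x0| < δ
    rw [Complex.ofReal_re, abs_lt]
    constructor <;> linarith [hx.1, hx.2]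
  have h2 : ContDiffOn ℝ ∞ (fun x : ℝ => Real.exp (2 * φ (x : ℂ))) (Ioo (x0 - δ) (x0 + δ)) :=
    (contDiffOn_const.mul h1).exp
  refine h2.congr fun x hx => ?_
  have h3 := (h.rot (x : ℂ) (by
    rw [Complex.ofReal_re, abs_lt]
    constructor <;> linarith [hx.1, hx.2])).2
  simp only [h3, Complex.ofReal_re]

/-- the periodic solution which belongs to an eigenfunction -/
theorem Gd.sol (h : Gd Ω φ pr G x0 δ) {lam : ℝ} {u : M → ℝ} (hu : IsEf Ω φ pr lam u) {R : ℝ}
    (hR : R ≤ δ) : Sol x0 R (fun x => Real.exp (2 * G x)) lam (fun z => u (pr z)) := by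
  have hsub : Sx x0 R ⊆ Sx x0 δ := fun z hz => lt_of_lt_of_le hz hR
  refine ⟨hu.1.mono fun z hz => h.sub (hsub hz), fun z hz => ?_, fun z hz => ?_⟩
  · show u (pr _) = u (pr z)
    rw [h.p1 (hsub hz)]
  · have h1 := hu.2 z (h.sub (hsub hz))
    rw [(h.rot z (hsub hz)).2] at h1
    have h2 : Real.exp (-2 * G z.re) * Real.exp (2 * G z.re) = 1 := by
      rw [← Real.exp_add]
      simp
    have h3 : px (px fun z => u (pr z)) z + py (py fun z => u (pr z)) z =
        Real.exp (2 * G z.re) * (Real.exp (-2 * G z.re) *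
          (px (px fun z => u (pr z)) z + py (py fun z => u (pr z)) z)) := by
      rw [← mul_assoc, mul_comm (Real.exp (2 * G z.re)), h2, one_mul]
    rw [h3]
    have h4 : Real.exp (-2 * G z.re) *
        (px (px fun z => u (pr z)) z + py (py fun z => u (pr z)) z) = -(lam * u (pr z)) := by
      linarith
    rw [h4]
    ring

theorem qx_meas (x0 r : ℝ) : MeasurableSet (Qx x0 r) := by
  have h1 : MeasurableSet {z : ℂ | |z.re - x0| < r} :=
    measurableSet_lt (continuous_abs.measurable.comp (Complex.measurable_re.sub_const x0))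
      measurable_const
  exact h1.inter (Complex.measurable_im measurableSet_Ioc)

theorem Gd.inj (h : Gd Ω φ pr G x0 δ) : InjOn pr (Qx x0 δ) := by
  intro z hz w hw he
  obtain ⟨n, hn⟩ := (h.per z w hz.1 hw.1).1 he
  have h3 := congrArg Complex.im hn
  have e1 : (z + n * (2 * π * Complex.I)).im = z.im + n * (2 * π) := by simp
  rw [e1] at h3
  have hp : (0 : ℝ) < 2 * π := by positivity
  have h4 : -1 < (n : ℝ) := by
    by_contra hcon
    push Not at hcon
    have h5 : (n : ℝ) * (2 * π) ≤ -1 * (2 * π) := mul_le_mul_of_nonneg_right hcon hp.le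
    linarith [hz.2.2, hw.2.1]
  have h6 : (n : ℝ) < 1 := by
    by_contra hcon
    push Not at hcon
    have h5 : 1 * (2 * π) ≤ (n : ℝ) * (2 * π) := mul_le_mul_of_nonneg_right hcon hp.le
    linarith [hz.2.1, hw.2.2]
  have h7 : n = 0 := by
    have h8 : (-1 : ℤ) < n := by exact_mod_cast h4
    have h9 : n < (1 : ℤ) := by exact_mod_cast h6
    omega
  rw [hn, h7]
  simp

/-- the image of the fundamental domain is the image of the strip -/
theorem Gd.img (h : Gd Ω φ pr G x0 δ) {r : ℝ} (hr : r ≤ δ) : pr '' Qx x0 r = pr '' Sx x0 r := by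
  apply Subset.antisymm
  · exact image_mono fun z hz => hz.1
  · rintro x ⟨z, hz, rfl⟩
    obtain ⟨n, hn, -⟩ := existsUnique_add_zsmul_mem_Ioc (by positivity : (0 : ℝ) < 2 * π) z.im 0
    rw [zero_add] at hn
    have hz' : |z.re - x0| < r := hz
    have hre : (z + n * (2 * π * Complex.I)).re = z.re := by simp
    refine ⟨z + n * (2 * π * Complex.I), ⟨by rw [hre]; exact hz', ?_⟩, ?_⟩
    · have e1 : (z + n * (2 * π * Complex.I)).im = z.im + n • (2 * π) := by simp
      rw [e1]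
      exact hn
    · exact ((h.per z _ (lt_of_lt_of_le hz' hr) (by
        rw [hre]
        exact lt_of_lt_of_le hz' hr)).2 ⟨n, rfl⟩).symm

/-- the compact set between two radii -/
theorem Gd.ring (h : Gd Ω φ pr G x0 δ) (hc : ContinuousOn pr Ω) {r R : ℝ} (hr : 0 < r)
    (hR : R < δ) : IsCompact (pr '' {z : ℂ | r ≤ |z.re - x0| ∧ |z.re - x0| ≤ R ∧
      z.im ∈ Icc 0 (2 * π)}) ∧ Disjoint (pr '' {z : ℂ | r ≤ |z.re - x0| ∧ |z.re - x0| ≤ R ∧
      z.im ∈ Icc 0 (2 * π)}) (Gm pr x0) := by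
  constructor
  · have h1 : IsCompact {z : ℂ | r ≤ |z.re - x0| ∧ |z.re - x0| ≤ R ∧ z.im ∈ Icc 0 (2 * π)} := by
      refine (isCompact_Icc.reProdIm isCompact_Icc :
        IsCompact (Icc (x0 - R) (x0 + R) ×ℂ Icc 0 (2 * π))).of_isClosed_subset ?_ ?_
      · have hc1 : IsClosed {z : ℂ | r ≤ |z.re - x0|} := isClosed_le continuous_const (by fun_prop)
        have hc2 : IsClosed {z : ℂ | |z.re - x0| ≤ R} := isClosed_le (by fun_prop) continuous_const
        have hc3 : IsClosed {z : ℂ | z.im ∈ Icc 0 (2 * π)} :=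
          isClosed_Icc.preimage Complex.continuous_im
        exact hc1.inter (hc2.inter hc3)
      · rintro z ⟨-, h2, h3⟩
        rw [Complex.mem_reProdIm]
        have h4 := abs_le.1 h2
        exact ⟨⟨by linarith [h4.1], by linarith [h4.2]⟩, h3⟩
    exact h1.image_of_continuousOn (hc.mono fun z hz => h.sub (lt_of_le_of_lt hz.2.1 hR))
  · rw [disjoint_left]
    rintro x ⟨z, ⟨h1, h2, -⟩, rfl⟩ ⟨w, hw, he⟩
    have hw' : w.re = x0 := hw
    obtain ⟨n, hn⟩ := (h.per z w (lt_of_le_of_lt h2 hR) (by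
      rw [hw', sub_self, abs_zero]
      exact h.δp)).1 he.symm
    have h3 := congrArg Complex.re hn
    have hre : (z + n * (2 * π * Complex.I)).re = z.re := by simp
    rw [hre, hw'] at h3
    rw [← h3, sub_self, abs_zero] at h1
    linarith

/-- **The weak limit.** -/
theorem weak_lim (sL : StLim) (sE : StEqui) (h : Gd Ω φ pr G x0 δ) (hUT : IsUT Ω φ pr q)
    (hμ : IsArea Ω φ pr μ) {u : ℕ → M → ℝ} {lam : ℕ → ℝ} (hu : ∀ j, IsEf Ω φ pr (lam j) (u j))
    (hint : ∀ j, Integrable (fun x => (u j x) ^ 2) μ) (hone : ∀ j, ∫ x, (u j x) ^ 2 ∂μ = 1)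
    {l : Filter ℕ} (htt : Tendsto lam l atTop)
    (hloc : ∀ K : Set M, IsCompact K → Disjoint K (Gm pr x0) →
      Tendsto (fun j => ∫ x in K, (u j x) ^ 2 ∂μ) l (𝓝 0)) {F : M → ℝ} (hF : Continuous F) :
    Tendsto (fun j => ∫ x, F x * (u j x) ^ 2 ∂μ) l (𝓝 (Av pr x0 F)) := by
  have hδ := h.δp
  obtain ⟨hcv, hfin, -, -⟩ := tCVM M P Ω φ pr q μ hUT hμ
  have huc : ∀ j, Continuous (u j) := fun j =>
    Pool.Agent.H240.NL.cont_of hUT (hu j).1.continuousOn
  set R : ℝ := δ / 2 with hR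
  have hRp : 0 < R := by positivity
  have hRδ : R < δ := by linarith
  set w : ℝ → ℝ := fun x => Real.exp (2 * G x) with hw
  set g : ℕ → ℂ → ℝ := fun j z => w z.re * (u j (pr z)) ^ 2 with hg
  have hg0 : ∀ j z, 0 ≤ g j z := fun j z => mul_nonneg (Real.exp_pos _).le (sq_nonneg _)
  have hQΩ : ∀ r ≤ δ, Qx x0 r ⊆ Ω := fun r hr z hz => h.sub (lt_of_lt_of_le hz.1 hr)
  have hQi : ∀ r ≤ δ, InjOn pr (Qx x0 r) := by
    intro r hr
    have h1 : Qx x0 r ⊆ Qx x0 δ := fun z hz => ⟨lt_of_lt_of_le hz.1 hr, hz.2⟩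
    exact h.inj.mono h1
  -- change of variables
  have hchange : ∀ (B : Set ℂ) (j : ℕ) (F : M → ℝ), MeasurableSet B → B ⊆ Qx x0 R → Continuous F →
      ∫ z in B, F (pr z) * g j z = ∫ x in pr '' B, F x * (u j x) ^ 2 ∂μ := by
    intro B j F hB hBQ hF
    have hBΩ : B ⊆ Ω := hBQ.trans (hQΩ R hRδ.le)
    rw [(hcv B hB hBΩ ((hQi R hRδ.le).mono hBQ)).2.2 (fun x => F x * (u j x) ^ 2)
      (hF.mul ((huc j).pow 2)).measurable]
    refine setIntegral_congr_fun hB fun z hz => ?_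
    have h1 := (h.rot z (lt_of_lt_of_le (hBQ hz).1 hRδ.le)).2
    simp only [hg, hw, h1]
    ring
  have hchange1 : ∀ (B : Set ℂ) (j : ℕ), MeasurableSet B → B ⊆ Qx x0 R →
      ∫ z in B, g j z = ∫ x in pr '' B, (u j x) ^ 2 ∂μ := by
    intro B j hB hBQ
    have h1 := hchange B j (fun _ => 1) hB hBQ continuous_const
    simpa using h1
  -- integrability
  have hwc : ContinuousOn w (Ioo (x0 - δ) (x0 + δ)) := (h.wsm hUT.smooth).continuousOn
  have hgi : ∀ j, IntegrableOn (g j) (Qx x0 R) := by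
    intro j
    have hcK : IsCompact (Icc (x0 - R) (x0 + R) ×ℂ Icc 0 (2 * π)) :=
      isCompact_Icc.reProdIm isCompact_Icc
    have hsubK : (Icc (x0 - R) (x0 + R) ×ℂ Icc 0 (2 * π)) ⊆ Sx x0 δ := by
      intro z hz
      rw [Complex.mem_reProdIm] at hz
      show |z.re - x0| < δ
      rw [abs_lt]
      constructor <;> linarith [hz.1.1, hz.1.2]
    have hgc : ContinuousOn (g j) (Icc (x0 - R) (x0 + R) ×ℂ Icc 0 (2 * π)) := by
      refine ContinuousOn.mul ?_ ?_
      · refine hwc.comp Complex.continuous_re.continuousOn fun z hz => ?_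
        have h0 : |z.re - x0| < δ := hsubK hz
        have h1 := abs_lt.1 h0
        exact ⟨by linarith [h1.1], by linarith [h1.2]⟩
      · exact ((hu j).1.continuousOn.mono (hsubK.trans h.sub)).pow 2
    refine (hgc.integrableOn_compact hcK).mono_set fun z hz => ?_
    rw [Complex.mem_reProdIm]
    have h1 := abs_lt.1 hz.1
    exact ⟨⟨by linarith [h1.1], by linarith [h1.2]⟩, hz.2.1.le, hz.2.2⟩
  have hg1 : ∀ j, ∫ z in Qx x0 R, g j z ≤ 1 := by
    intro j
    rw [hchange1 _ j (qx_meas x0 R) le_rfl, ← hone j]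
    exact setIntegral_le_integral (hint j) (Filter.Eventually.of_forall fun x => sq_nonneg _)
  have hQd : ∀ r : ℝ, MeasurableSet (Qx x0 R \ Qx x0 r) := fun r =>
    (qx_meas x0 R).diff (qx_meas x0 r)
  have hg2 : ∀ r : ℝ, 0 < r → r < R →
      Tendsto (fun j => ∫ z in Qx x0 R \ Qx x0 r, g j z) l (𝓝 0) := by
    intro r hr hrR
    obtain ⟨k1, k2⟩ := h.ring hUT.contp hr hRδ
    refine squeeze_zero (fun j => integral_nonneg fun z => hg0 j z) (fun j => ?_) (hloc _ k1 k2)
    rw [hchange1 _ j (hQd r) diff_subset]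
    refine setIntegral_mono_set (hint j).integrableOn
      (Filter.Eventually.of_forall fun x => sq_nonneg _)
      (Filter.Eventually.of_forall (image_mono ?_))
    rintro z ⟨hz1, hz2⟩
    refine ⟨?_, hz1.1.le, hz1.2.1.le, hz1.2.2⟩
    by_contra hcon
    push Not at hcon
    exact hz2 ⟨hcon, hz1.2⟩
  -- the image of the fundamental domain is open
  have hUo : ∀ r ≤ δ, IsOpen (pr '' Qx x0 r) := by
    intro r hr
    rw [h.img hr]
    refine hUT.opnp _ (isOpen_lt (by fun_prop) continuous_const) fun z hz => ?_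
    exact h.sub (lt_of_lt_of_le hz hr)
  have hUc : ∀ r : ℝ, 0 < r → r ≤ δ →
      Tendsto (fun j => ∫ x in (pr '' Qx x0 r)ᶜ, (u j x) ^ 2 ∂μ) l (𝓝 0) := by
    intro r hr hrδ
    refine hloc _ (hUo r hrδ).isClosed_compl.isCompact (disjoint_left.2 ?_)
    rintro x hx ⟨z, hz, rfl⟩
    apply hx
    rw [h.img hrδ]
    refine ⟨z, ?_, rfl⟩
    have hz' : z.re = x0 := hz
    show |z.re - x0| < r
    rw [hz', sub_self, abs_zero]
    exact hr
  have hg3 : ∀ r : ℝ, 0 < r → r < R → Tendsto (fun j => ∫ z in Qx x0 r, g j z) l (𝓝 1) := by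
    intro r hr hrR
    have h1 : (fun j => ∫ z in Qx x0 r, g j z) =
        fun j => 1 - ∫ x in (pr '' Qx x0 r)ᶜ, (u j x) ^ 2 ∂μ := by
      funext j
      rw [hchange1 _ j (qx_meas x0 r) fun z hz => ⟨lt_trans hz.1 hrR, hz.2⟩]
      have h2 := integral_add_compl (hUo r (by linarith)).measurableSet (hint j)
      rw [hone j] at h2
      linarith
    rw [h1]
    simpa using (hUc r hr (by linarith)).const_sub 1
  have hIR : Ioo (x0 - R) (x0 + R) ⊆ Ioo (x0 - δ) (x0 + δ) := fun x hx =>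
    ⟨by linarith [hx.1], by linarith [hx.2]⟩
  have hlim := sL x0 R w l (fun j z => u j (pr z)) lam hRp ((h.wsm hUT.smooth).mono hIR)
    (fun x _ => Real.exp_pos _) (fun j => h.sol (hu j) hRδ.le) htt hgi hg1 hg2
  have hequi := sE x0 R l g hRp hg0 hgi hg1 hg3 hlim (fun z => F (pr z))
    (hF.comp_continuousOn (hUT.contp.mono fun z hz => h.sub (lt_trans hz hRδ)))
    (fun z hz => by
      have h1 := h.p1 (lt_trans hz hRδ : z ∈ Sx x0 δ)
      rw [h1]) (R / 2) (by positivity) (by linarith)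
  -- the rest
  obtain ⟨B, hB⟩ := isCompact_univ.exists_bound_of_continuousOn hF.continuousOn
  have hI : ∀ j, Integrable (fun x => F x * (u j x) ^ 2) μ := fun j =>
    (hint j).bdd_mul hF.aestronglyMeasurable
      (Filter.Eventually.of_forall fun x => hB x (mem_univ x))
  have hrest : Tendsto (fun j => ∫ x in (pr '' Qx x0 (R / 2))ᶜ, F x * (u j x) ^ 2 ∂μ) l (𝓝 0) := by
    refine squeeze_zero_norm (a := fun j => B * ∫ x in (pr '' Qx x0 (R / 2))ᶜ, (u j x) ^ 2 ∂μ)
      (fun j => ?_) (by simpa using (hUc (R / 2) (by positivity) (by linarith)).const_mul B)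
    rw [← integral_const_mul]
    refine norm_integral_le_of_norm_le ((hint j).integrableOn.const_mul B)
      (Filter.Eventually.of_forall fun x => ?_)
    rw [norm_mul, Real.norm_of_nonneg (sq_nonneg (u j x))]
    exact mul_le_mul_of_nonneg_right (hB x (mem_univ x)) (sq_nonneg _)
  have hsum : (fun j => ∫ x, F x * (u j x) ^ 2 ∂μ) = fun j =>
      (∫ z in Qx x0 (R / 2), F (pr z) * g j z) +
        ∫ x in (pr '' Qx x0 (R / 2))ᶜ, F x * (u j x) ^ 2 ∂μ := by
    funext j
    rw [hchange _ j F (qx_meas x0 (R / 2)) (fun z hz => ⟨lt_trans hz.1 (by linarith), hz.2⟩) hF]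
    exact (integral_add_compl (hUo (R / 2) (by linarith)).measurableSet (hI j)).symm
  rw [hsum]
  have hfinal := hequi.add hrest
  rw [add_zero] at hfinal
  exact hfinal

end

end Pool.Agent.H240.AL
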